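import Pool.Agent.Helper78_Sph.Sd

/-!
# Barycentric subdivisions of homology spheres are homology spheres
-/

namespace Pool.Agent.Sph.H78

open Pool.Agent.Helper30L2

set_option linter.unusedSectionVars false
set_option linter.unusedVariables false

noncomputable section

variable {U : Type} [DecidableEq U] [Fintype U]

/-- The complex with the empty simplex only. -/
theorem sp_point : Sp (fun α : Finset U => α = ∅) 0 := by
  have h0 : ∀ {y : Finset U → ZMod 2}, Ct (fun α : Finset U => α = ∅) y → bd y = 0 := by
    intro y hy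
    funext T
    unfold bd
    refine Finset.sum_eq_zero fun v _ => ?_
    exact hy.eq_zero (Finset.insert_ne_empty v T)
  refine ⟨fun T => if T = ∅ then 1 else 0, ?_, ?_, ?_, ?_, ?_⟩
  · intro T hT
    by_contra h
    exact hT (by simp [h])
  · intro T hT
    by_cases h : T = ∅
    · rw [h, Finset.card_empty]
    · exact absurd (by simp [h]) hT
  · apply h0
    intro T hT
    by_contra h
    exact hT (by simp [h])
  · intro y hy hyc
    rw [h0 hy] at hyc
    have := congrFun hyc ∅
    simp at this
  · intro z hz _
    refine ⟨0, ct_zero _, ?_⟩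
    rw [bd_zero]
    rcases zmod_cases (z ∅) with h | h
    · left
      funext T
      by_cases hT : T = ∅
      · rw [hT, h]
        rfl
      · exact (hz.eq_zero hT).symm
    · right
      funext T
      rw [Pi.add_apply]
      by_cases hT : T = ∅
      · rw [hT, h]
        simp only [if_true, Pi.zero_apply]
        exact (CharTwo.add_self_eq_zero (1 : ZMod 2)).symm
      · rw [hz.eq_zero hT]
        simp [hT]

/-- The join of the boundary of the simplex `σ ⊆ ω` and of a complex, given by the predicate `L`
that does not see the elements of `ω`. -/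
def Xc (ω σ : Finset U) (L : Finset U → Prop) (α : Finset U) : Prop :=
  Disjoint (ω \ σ) α ∧ ¬ σ ⊆ α ∧ L α

theorem xc_low {ω σ : Finset U} {L : Finset U → Prop} (hL : Low L) : Low (Xc ω σ L) := by
  rintro T ⟨h1, h2, h3⟩ T' hT'
  exact ⟨Finset.disjoint_of_subset_right hT' h1, fun h => h2 (h.trans hT'), hL _ h3 _ hT'⟩

theorem sp_xc {ω : Finset U} {L : Finset U → Prop} (hL : Low L)
    (hinv : ∀ α, ∀ b ∈ ω, L α → L (insert b α)) {m : ℕ}
    (h : Sp (fun α => Disjoint ω α ∧ L α) m) :
    ∀ σ : Finset U, σ ⊆ ω → ∀ a ∈ ω, a ∉ σ → Sp (Xc ω (insert a σ) L) (σ.card + m) := by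
  intro σ
  induction σ using Finset.induction with
  | empty =>
    intro _ a ha _
    rw [Finset.card_empty, zero_add]
    refine h.congr ?_
    intro α
    unfold Xc
    constructor
    · rintro ⟨h1, h2⟩
      refine ⟨Finset.disjoint_of_subset_left Finset.sdiff_subset h1, ?_, h2⟩
      intro h3
      exact Finset.disjoint_left.mp h1 ha (h3 (Finset.mem_insert_self _ _))
    · rintro ⟨h1, h2, h3⟩
      refine ⟨?_, h3⟩
      rw [Finset.disjoint_left]
      intro x hx hx'
      by_cases hxa : x = a
      · rw [hxa] at hx'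
        apply h2
        intro y hy
        rw [Finset.mem_insert] at hy
        rcases hy with rfl | hy
        · exact hx'
        · exact absurd hy (Finset.notMem_empty _)
      · refine Finset.disjoint_left.mp h1 ?_ hx'
        rw [Finset.mem_sdiff, Finset.mem_insert]
        exact ⟨hx, fun h4 => h4.elim hxa (Finset.notMem_empty _)⟩
  | insert b σ hb ih =>
    intro hσ a ha haσ
    have hbω : b ∈ ω := hσ (Finset.mem_insert_self _ _)
    have hσω : σ ⊆ ω := (Finset.subset_insert _ _).trans hσ
    have hab : a ≠ b := fun h => haσ (by rw [h]; exact Finset.mem_insert_self _ _)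
    rw [Finset.card_insert_of_notMem hb]
    have e : σ.card + 1 + m = (σ.card + m) + 1 := by omega
    rw [e]
    refine sp_susp (a := a) (xc_low hL) ?_ ?_
    · refine (ih hσω b hbω hb).congr ?_
      intro α
      unfold lkc Xc
      constructor
      · rintro ⟨h1, h2, h3⟩
        have haα : a ∉ α := by
          refine Finset.disjoint_left.mp h1 ?_
          rw [Finset.mem_sdiff]
          exact ⟨ha, haσ⟩
        refine ⟨haα, ?_, ?_, hinv _ a ha h3⟩
        · rw [Finset.disjoint_insert_right]
          refine ⟨?_, ?_⟩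
          · intro h4
            exact (Finset.mem_sdiff.mp h4).2 (Finset.mem_insert_self _ _)
          · refine Finset.disjoint_of_subset_left ?_ h1
            exact Finset.sdiff_subset_sdiff subset_rfl (Finset.subset_insert _ _)
        · intro h4
          apply h2
          intro x hx
          have h5 := h4 (Finset.mem_insert_of_mem hx)
          rw [Finset.mem_insert] at h5
          rcases h5 with rfl | h5
          · exact absurd hx haσ
          · exact h5
      · rintro ⟨h0, h1, h2, h3⟩
        refine ⟨?_, ?_, hL _ h3 _ (Finset.subset_insert _ _)⟩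
        · rw [Finset.disjoint_left]
          intro x hx hx'
          by_cases hxa : x = a
          · rw [hxa] at hx'
            exact h0 hx'
          · refine Finset.disjoint_left.mp h1 ?_ (Finset.mem_insert_of_mem hx')
            rw [Finset.mem_sdiff] at hx ⊢
            refine ⟨hx.1, ?_⟩
            rw [Finset.mem_insert]
            exact fun h4 => h4.elim hxa hx.2
        · intro h4
          apply h2
          exact Finset.insert_subset_insert a h4
    · apply ac_cone (a := b)
      rintro α ⟨⟨h1, h2, h3⟩, h4⟩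
      have h5 : a ∉ insert b α := by
        rw [Finset.mem_insert, not_or]
        exact ⟨hab, h4⟩
      refine ⟨⟨?_, ?_, hinv _ b hbω h3⟩, h5⟩
      · rw [Finset.disjoint_insert_right]
        refine ⟨?_, h1⟩
        intro h6
        exact (Finset.mem_sdiff.mp h6).2
          (Finset.mem_insert_of_mem (Finset.mem_insert_self _ _))
      · intro h6
        exact h5 (h6 (Finset.mem_insert_self _ _))

theorem sp_xc' {ω σ : Finset U} {L : Finset U → Prop} (hL : Low L)
    (hinv : ∀ α, ∀ b ∈ ω, L α → L (insert b α)) {m : ℕ}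
    (h : Sp (fun α => Disjoint ω α ∧ L α) m) (hσ : σ ⊆ ω) (hne : σ.Nonempty) :
    Sp (Xc ω σ L) (σ.card - 1 + m) := by
  obtain ⟨a, ha⟩ := hne
  have := sp_xc hL hinv h (σ.erase a) ((Finset.erase_subset _ _).trans hσ) a (hσ ha)
    (Finset.notMem_erase a σ)
  rwa [Finset.insert_erase ha, Finset.card_erase_of_mem ha] at this

/-- All links of simplices containing `ρ` are homology spheres of the right dimension. -/
def LSph (K : Finset U → Prop) (ρ : Finset U) (n : ℕ) : Prop :=
  K ρ ∧ ∀ ρ', K ρ' → ρ ⊆ ρ' → ρ'.card ≤ ρ.card + n ∧ Sp (lkS K ρ') (ρ.card + n - ρ'.card)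

theorem sph_simplex {τ ρ : Finset U} (h : ρ ⊂ τ) :
    LSph (fun τ' => τ' ⊂ τ) ρ (τ.card - ρ.card - 1) := by
  refine ⟨h, ?_⟩
  intro ρ' h1 h2
  have c1 := Finset.card_lt_card h1
  have c2 := Finset.card_le_card h2
  refine ⟨by omega, ?_⟩
  have hne : (τ \ ρ').Nonempty := by
    rw [Finset.sdiff_nonempty]
    exact h1.2
  have key := sp_xc' (ω := τ) (σ := τ \ ρ') (L := fun α => α ⊆ τ) (m := 0)
    (fun T hT T' hT' => hT'.trans hT) (fun α b hb hα => Finset.insert_subset hb hα) (by
      refine sp_point.congr ?_
      intro α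
      constructor
      · rintro rfl
        exact ⟨Finset.disjoint_empty_right _, Finset.empty_subset _⟩
      · rintro ⟨h3, h4⟩
        rw [← Finset.disjoint_self_iff_empty]
        exact Finset.disjoint_of_subset_left h4 h3) Finset.sdiff_subset hne
  have e : (τ \ ρ').card - 1 + 0 = ρ.card + (τ.card - ρ.card - 1) - ρ'.card := by
    rw [Finset.card_sdiff_of_subset h1.1]
    omega
  rw [e] at key
  refine key.congr ?_
  intro α
  unfold Xc lkS
  rw [Finset.sdiff_sdiff_eq_self h1.1]
  constructor
  · rintro ⟨h3, h4, h5⟩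
    refine ⟨h3, Finset.union_subset h1.1 h5, ?_⟩
    intro h6
    apply h4
    intro x hx
    rw [Finset.mem_sdiff] at hx
    exact (Finset.mem_union.mp (h6 hx.1)).resolve_left hx.2
  · rintro ⟨h3, h4⟩
    refine ⟨h3, ?_, Finset.subset_union_right.trans h4.1⟩
    intro h5
    apply h4.2
    intro x hx
    rw [Finset.mem_union]
    by_cases hx' : x ∈ ρ'
    · exact Or.inl hx'
    · exact Or.inr (h5 (Finset.mem_sdiff.mpr ⟨hx, hx'⟩))

/-- The simplices of `K` that properly contain `ρ` form a homology sphere. -/
theorem hsp_sd : ∀ (n : ℕ) (K : Finset U → Prop) (ρ : Finset U), Low K → LSph K ρ n →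
    ∀ S : Finset (Finset U), (∀ τ, τ ∈ S ↔ K τ ∧ ρ ⊂ τ) →
      Hsp (comparability (Finset U)) n S := by
  intro n
  induction n using Nat.strong_induction_on with
  | _ n ih =>
    intro K ρ hK hs S hS
    obtain ⟨hρ, hs2⟩ := hs
    cases n with
    | zero =>
      change S = ∅
      rw [Finset.eq_empty_iff_forall_notMem]
      intro τ hτ
      obtain ⟨h1, h2⟩ := (hS τ).mp hτ
      have := (hs2 τ h1 h2.1).1
      have := Finset.card_lt_card h2
      omega
    | succ n =>
      refine ⟨?_, ?_⟩
      · have h1 := (hs2 ρ hρ subset_rfl).2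
        have e : ρ.card + (n + 1) - ρ.card = n + 1 := by omega
        rw [e] at h1
        exact sl_of_sp (sp_sd hK hρ S hS h1)
      · intro τ hτ
        obtain ⟨hKτ, hρτ⟩ := (hS τ).mp hτ
        have c1 := Finset.card_lt_card hρτ
        have c2 := (hs2 τ hKτ hρτ.1).1
        classical
        set I : Finset (Finset U) := S.filter fun τ' => τ' ⊂ τ with hI
        set S' : Finset (Finset U) := S.filter fun τ' => τ ⊂ τ' with hS'
        have e1 : lk (comparability (Finset U)) S τ = I ∪ S' := by
          ext τ'
          rw [mem_lk, comp_adj, Finset.mem_union, hI, hS', Finset.mem_filter, Finset.mem_filter]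
          constructor
          · rintro ⟨h1, h2, h3 | h3⟩
            · exact Or.inr ⟨h1, Finset.ssubset_iff_subset_ne.mpr ⟨h3, h2⟩⟩
            · exact Or.inl ⟨h1, Finset.ssubset_iff_subset_ne.mpr ⟨h3, h2.symm⟩⟩
          · rintro (⟨h1, h2⟩ | ⟨h1, h2⟩)
            · exact ⟨h1, (Finset.ssubset_iff_subset_ne.mp h2).2.symm, Or.inr h2.1⟩
            · exact ⟨h1, (Finset.ssubset_iff_subset_ne.mp h2).2, Or.inl h2.1⟩
        have e2 : n = (τ.card - ρ.card - 1) + (ρ.card + (n + 1) - τ.card) := by omega
        rw [e1, e2]
        refine hsp_join _ _ _ rfl ?_ ?_ ?_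
        · intro x hx y hy
          rw [hI, Finset.mem_filter] at hx
          rw [hS', Finset.mem_filter] at hy
          rw [comp_adj]
          have h3 : x ⊂ y := hx.2.trans hy.2
          exact ⟨(Finset.ssubset_iff_subset_ne.mp h3).2, Or.inl h3.1⟩
        · refine ih _ (by omega) (fun τ' => τ' ⊂ τ) ρ ?_ (sph_simplex hρτ) I ?_
          · intro T hT T' hT'
            exact lt_of_le_of_lt hT' hT
          · intro τ'
            rw [hI, Finset.mem_filter, hS τ']
            constructor
            · rintro ⟨⟨_, h2⟩, h3⟩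
              exact ⟨h3, h2⟩
            · rintro ⟨h2, h3⟩
              exact ⟨⟨hK _ hKτ _ h2.1, h3⟩, h2⟩
        · refine ih _ (by omega) K τ hK ⟨hKτ, ?_⟩ S' ?_
          · intro ρ' h3 h4
            obtain ⟨h5, h6⟩ := hs2 ρ' h3 (hρτ.1.trans h4)
            refine ⟨by omega, ?_⟩
            have e3 : τ.card + (ρ.card + (n + 1) - τ.card) - ρ'.card =
                ρ.card + (n + 1) - ρ'.card := by omega
            rw [e3]
            exact h6
          · intro τ'
            rw [hS', Finset.mem_filter, hS τ']
            constructor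
            · rintro ⟨⟨h2, _⟩, h3⟩
              exact ⟨h2, h3⟩
            · rintro ⟨h2, h3⟩
              exact ⟨⟨h2, hρτ.trans h3⟩, h3⟩

end

end Pool.Agent.Sph.H78
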