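import Pool.Agent.Helper30_Sph.Stmts

/-!
# Simplicial complexes and homology modulo two

A complex is a predicate `K` on the finite sets of vertices.  Chains are functions on the finite
sets.  `Ac K`: the reduced homology of `K` is zero.  `Sp K n`: the reduced homology is that of a
sphere of dimension `n - 1`.
-/

namespace Pool.Agent.Sph.H78

open Pool.Agent.Helper30L2

set_option linter.unusedSectionVars false
set_option linter.unusedVariables false

noncomputable section

variable {V : Type} [DecidableEq V] [Fintype V]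

theorem bd_add (x y : Finset V → ZMod 2) : bd (x + y) = bd x + bd y := by
  funext T
  simp only [bd, Pi.add_apply, Finset.sum_add_distrib]

theorem bd_zero : bd (0 : Finset V → ZMod 2) = 0 := by
  funext T
  simp [bd]

theorem add_self (x : Finset V → ZMod 2) : x + x = 0 := by
  funext T
  exact CharTwo.add_self_eq_zero (x T)

theorem eq_of_add {x y : Finset V → ZMod 2} (h : x + y = 0) : x = y := by
  funext T
  have := congrFun h T
  simp only [Pi.add_apply, Pi.zero_apply] at this
  exact CharTwo.add_eq_zero.mp this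

theorem bd_smul (r : ZMod 2) (x : Finset V → ZMod 2) : bd (r • x) = r • bd x := by
  funext T
  simp only [bd, Pi.smul_apply, smul_eq_mul, Finset.mul_sum]

/-- `z` is a chain of the complex `K`. -/
def Ct (K : Finset V → Prop) (z : Finset V → ZMod 2) : Prop := ∀ T, z T ≠ 0 → K T

theorem Ct.add {K : Finset V → Prop} {x y : Finset V → ZMod 2} (hx : Ct K x) (hy : Ct K y) :
    Ct K (x + y) := by
  intro T h
  by_cases h1 : x T = 0
  · apply hy
    intro h2
    exact h (by simp [h1, h2])
  · exact hx T h1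

theorem ct_zero (K : Finset V → Prop) : Ct K 0 := fun _ h => absurd rfl h

theorem Ct.smul {K : Finset V → Prop} {x : Finset V → ZMod 2} (hx : Ct K x) (r : ZMod 2) :
    Ct K (r • x) := by
  intro T h
  apply hx
  intro h1
  exact h (by simp [h1])

theorem Ct.mono {K K' : Finset V → Prop} (h : ∀ T, K T → K' T) {x : Finset V → ZMod 2}
    (hx : Ct K x) : Ct K' x := fun T hT => h T (hx T hT)

theorem Ct.eq_zero {K : Finset V → Prop} {x : Finset V → ZMod 2} (hx : Ct K x) {T : Finset V}
    (h : ¬ K T) : x T = 0 := by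
  by_contra h1
  exact h (hx T h1)

/-- Closed under subsets. -/
def Low (K : Finset V → Prop) : Prop := ∀ T, K T → ∀ T' ⊆ T, K T'

/-- The part of the chain on the sets containing `a`, as a chain of the link. -/
def lp (a : V) (z : Finset V → ZMod 2) (T : Finset V) : ZMod 2 :=
  if a ∈ T then 0 else z (insert a T)

/-- The part of the chain on the sets that do not contain `a`. -/
def dp (a : V) (z : Finset V → ZMod 2) (T : Finset V) : ZMod 2 := if a ∈ T then 0 else z T

/-- The cone with apex `a`. -/
def co (a : V) (u : Finset V → ZMod 2) (T : Finset V) : ZMod 2 :=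
  if a ∈ T then u (T.erase a) else 0

theorem split (a : V) (z : Finset V → ZMod 2) : z = dp a z + co a (lp a z) := by
  funext T
  simp only [Pi.add_apply, dp, co, lp]
  by_cases h : a ∈ T
  · simp [h, Finset.insert_erase h]
  · simp [h]

theorem bd_co {a : V} {u : Finset V → ZMod 2} (hu : ∀ T, a ∈ T → u T = 0) :
    bd (co a u) = u + co a (bd u) := by
  funext T
  simp only [Pi.add_apply]
  by_cases h : a ∈ T
  · rw [hu T h, zero_add]
    simp only [co, bd, h, if_true]
    have e1 : Finset.univ \ T.erase a = insert a (Finset.univ \ T) := by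
      ext v
      simp only [Finset.mem_sdiff, Finset.mem_univ, true_and, Finset.mem_erase, Finset.mem_insert]
      by_cases hv : v = a
      · simp [hv]
      · simp [hv]
    rw [e1, Finset.sum_insert (by simp [h]), Finset.insert_erase h, hu T h, zero_add]
    refine Finset.sum_congr rfl fun v hv => ?_
    have hv' : v ≠ a := by
      rintro rfl
      simp [h] at hv
    rw [if_pos (Finset.mem_insert_of_mem h), Finset.erase_insert_of_ne hv']
  · have e1 : co a (bd u) T = 0 := by simp [co, h]
    rw [e1, add_zero]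
    unfold bd
    rw [Finset.sum_eq_single a]
    · simp [co, Finset.erase_insert h]
    · intro v _ hv
      have : a ∉ insert v T := by
        simp only [Finset.mem_insert, not_or]
        exact ⟨hv.symm, h⟩
      simp [co, this]
    · intro h1
      simp [h] at h1

theorem dp_bd (a : V) (z : Finset V → ZMod 2) : dp a (bd z) = bd (dp a z) + lp a z := by
  funext T
  simp only [Pi.add_apply]
  by_cases h : a ∈ T
  · have h1 : ∀ v, a ∈ insert v T := fun v => Finset.mem_insert_of_mem h
    simp [dp, lp, bd, h, h1]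
  · simp only [dp, lp, h, if_false]
    unfold bd
    have h1 : a ∈ Finset.univ \ T := by simp [h]
    rw [← Finset.add_sum_erase _ _ h1, ← Finset.add_sum_erase _ _ h1, add_comm]
    have e2 : dp a z (insert a T) = 0 := by simp [dp]
    rw [e2, zero_add]
    congr 1
    refine Finset.sum_congr rfl fun v hv => ?_
    rw [Finset.mem_erase] at hv
    have : a ∉ insert v T := by
      simp only [Finset.mem_insert, not_or]
      exact ⟨hv.1.symm, h⟩
    rw [dp, if_neg this]

theorem lp_bd (a : V) (z : Finset V → ZMod 2) : lp a (bd z) = bd (lp a z) := by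
  funext T
  by_cases h : a ∈ T
  · have h1 : ∀ v, a ∈ insert v T := fun v => Finset.mem_insert_of_mem h
    simp [lp, bd, h, h1]
  · simp only [lp, h, if_false]
    unfold bd
    have h1 : a ∈ Finset.univ \ T := by simp [h]
    rw [← Finset.add_sum_erase (Finset.univ \ T) _ h1]
    have e2 : lp a z (insert a T) = 0 := by simp [lp]
    rw [e2, zero_add]
    have e3 : Finset.univ \ insert a T = (Finset.univ \ T).erase a := by
      ext v
      simp only [Finset.mem_sdiff, Finset.mem_univ, true_and, Finset.mem_insert, not_or,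
        Finset.mem_erase]
    rw [e3]
    refine Finset.sum_congr rfl fun v hv => ?_
    rw [Finset.mem_erase] at hv
    have : a ∉ insert v T := by
      simp only [Finset.mem_insert, not_or]
      exact ⟨hv.1.symm, h⟩
    rw [lp, if_neg this, Finset.insert_comm]

theorem dp_of {a : V} {z : Finset V → ZMod 2} (h : ∀ T, a ∈ T → z T = 0) : dp a z = z := by
  funext T
  by_cases h1 : a ∈ T
  · simp [dp, h1, h T h1]
  · simp [dp, h1]

theorem lp_of {a : V} {z : Finset V → ZMod 2} (h : ∀ T, a ∈ T → z T = 0) : lp a z = 0 := by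
  funext T
  by_cases h1 : a ∈ T
  · simp [lp, h1]
  · simp [lp, h1, h _ (Finset.mem_insert_self a T)]

theorem dp_add (a : V) (x y : Finset V → ZMod 2) : dp a (x + y) = dp a x + dp a y := by
  funext T
  by_cases h : a ∈ T <;> simp [dp, h]

theorem lp_add (a : V) (x y : Finset V → ZMod 2) : lp a (x + y) = lp a x + lp a y := by
  funext T
  by_cases h : a ∈ T <;> simp [lp, h]

theorem lp_co (a : V) {u : Finset V → ZMod 2} (hu : ∀ T, a ∈ T → u T = 0) : lp a (co a u) = u := by
  funext T
  by_cases h : a ∈ T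
  · simp [lp, h, hu T h]
  · simp [lp, h, co, Finset.erase_insert h]

/-- The homology is zero. -/
def Ac (K : Finset V → Prop) : Prop :=
  ∀ z, Ct K z → bd z = 0 → ∃ y, Ct K y ∧ bd y = z

/-- The homology is that of a sphere. -/
def Sp (K : Finset V → Prop) (n : ℕ) : Prop :=
  ∃ c, Ct K c ∧ (∀ T, c T ≠ 0 → T.card = n) ∧ bd c = 0 ∧ (∀ y, Ct K y → bd y ≠ c) ∧
    ∀ z, Ct K z → bd z = 0 → ∃ y, Ct K y ∧ (bd y = z ∨ bd y = z + c)

/-- The deletion of the vertex `a`. -/
def del (K : Finset V → Prop) (a : V) (T : Finset V) : Prop := K T ∧ a ∉ T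

/-- The link of the vertex `a`. -/
def lkc (K : Finset V → Prop) (a : V) (T : Finset V) : Prop := a ∉ T ∧ K (insert a T)

variable {K : Finset V → Prop} {a : V}

theorem Sp.congr {K' : Finset V → Prop} {n : ℕ} (h : ∀ T, K T ↔ K' T) (hK : Sp K n) : Sp K' n := by
  have : K = K' := funext fun T => propext (h T)
  rw [← this]
  exact hK

theorem Ac.congr {K' : Finset V → Prop} (h : ∀ T, K T ↔ K' T) (hK : Ac K) : Ac K' := by
  have : K = K' := funext fun T => propext (h T)
  rw [← this]
  exact hK

theorem ac_false (h : ∀ T, ¬ K T) : Ac K := by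
  intro z hz _
  refine ⟨0, ct_zero K, ?_⟩
  rw [bd_zero]
  funext T
  exact (hz.eq_zero (h T)).symm

/-- A cone has no homology. -/
theorem ac_cone (h : ∀ T, K T → K (insert a T)) : Ac K := by
  intro z hz hb
  have h1 : ∀ T, a ∈ T → dp a z T = 0 := fun T hT => by simp [dp, hT]
  refine ⟨co a (dp a z), ?_, ?_⟩
  · intro T hT
    by_cases ha : a ∈ T
    · have h2 : z (T.erase a) ≠ 0 := by
        simpa [co, dp, ha] using hT
      have h3 := h _ (hz _ h2)
      rwa [Finset.insert_erase ha] at h3
    · exact absurd (by simp [co, ha]) hT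
  · rw [bd_co h1]
    have h2 := dp_bd a z
    rw [hb] at h2
    have h3 : dp a (0 : Finset V → ZMod 2) = 0 := by
      funext T
      simp [dp]
    rw [h3] at h2
    rw [eq_of_add h2.symm]
    exact (split a z).symm

theorem lp_ct {z : Finset V → ZMod 2} (hz : Ct K z) : Ct (lkc K a) (lp a z) := by
  intro T hT
  by_cases ha : a ∈ T
  · exact absurd (by simp [lp, ha]) hT
  · refine ⟨ha, hz _ ?_⟩
    simpa [lp, ha] using hT

theorem dp_ct {z : Finset V → ZMod 2} (hz : Ct K z) : Ct (del K a) (dp a z) := by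
  intro T hT
  by_cases ha : a ∈ T
  · exact absurd (by simp [dp, ha]) hT
  · refine ⟨hz _ ?_, ha⟩
    simpa [dp, ha] using hT

theorem lkc_zero {u : Finset V → ZMod 2} (hu : Ct (lkc K a) u) : ∀ T, a ∈ T → u T = 0 :=
  fun T hT => hu.eq_zero fun h => h.1 hT

theorem del_zero {u : Finset V → ZMod 2} (hu : Ct (del K a) u) : ∀ T, a ∈ T → u T = 0 :=
  fun T hT => hu.eq_zero fun h => h.2 hT

theorem co_ct {u : Finset V → ZMod 2} (hu : Ct (lkc K a) u) : Ct K (co a u) := by
  intro T hT
  by_cases ha : a ∈ T
  · have h2 : u (T.erase a) ≠ 0 := by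
      simpa [co, ha] using hT
    have h3 := (hu _ h2).2
    rwa [Finset.insert_erase ha] at h3
  · exact absurd (by simp [co, ha]) hT

theorem lk_del (hK : Low K) {u : Finset V → ZMod 2} (hu : Ct (lkc K a) u) : Ct (del K a) u :=
  hu.mono fun T hT => ⟨hK _ hT.2 _ (Finset.subset_insert a T), hT.1⟩

/-- If the link part of `x` is the boundary of `u`, then `x + bd (co a u)` lives on the deletion. -/
theorem push (hK : Low K) {x u : Finset V → ZMod 2} (hx : Ct K x) (hu : Ct (lkc K a) u)
    (h : lp a x = bd u) : Ct (del K a) (x + bd (co a u)) := by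
  have h0 := lkc_zero hu
  have e : x + bd (co a u) = dp a x + u := by
    rw [bd_co h0]
    have h1 := split a x
    rw [h] at h1
    calc x + (u + co a (bd u)) = (dp a x + co a (bd u)) + (u + co a (bd u)) := by rw [← h1]
      _ = dp a x + u + (co a (bd u) + co a (bd u)) := by abel
      _ = dp a x + u := by rw [add_self, add_zero]
  rw [e]
  exact (dp_ct hx).add (lk_del hK hu)

theorem bd_lp {x : Finset V → ZMod 2} (h : ∀ T, a ∈ T → bd x T = 0) : bd (lp a x) = 0 := by
  rw [← lp_bd, lp_of h]

theorem bd_bd (x : Finset V → ZMod 2) : bd (bd x) = 0 := by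
  funext T
  simp only [Pi.zero_apply]
  unfold bd
  rw [Finset.sum_sigma']
  refine Finset.sum_involution (fun p _ => ⟨p.2, p.1⟩) ?_ ?_ ?_ ?_
  · rintro ⟨v, w⟩ _
    simp only
    rw [Finset.insert_comm]
    exact CharTwo.add_self_eq_zero _
  · rintro ⟨v, w⟩ h _ h2
    simp only [Finset.mem_sigma, Finset.mem_sdiff, Finset.mem_univ, true_and,
      Finset.mem_insert, not_or] at h
    simp only [Sigma.mk.injEq] at h2
    exact h.2.1 h2.1
  · rintro ⟨v, w⟩ h
    simp only [Finset.mem_sigma, Finset.mem_sdiff, Finset.mem_univ, true_and,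
      Finset.mem_insert, not_or] at h ⊢
    exact ⟨h.2.2, fun e => h.2.1 e.symm, h.1⟩
  · rintro ⟨v, w⟩ _
    rfl

theorem ac_add (hK : Low K) (h1 : Ac (lkc K a)) (h2 : Ac (del K a)) : Ac K := by
  intro z hz hb
  obtain ⟨u, hu, hu2⟩ := h1 (lp a z) (lp_ct hz) (bd_lp (by simp [hb]))
  obtain ⟨y, hy, hy2⟩ := h2 _ (push hK hz hu hu2.symm) (by rw [bd_add, hb, bd_bd, add_zero])
  refine ⟨y + co a u, (hy.mono fun T h => h.1).add (co_ct hu), ?_⟩
  rw [bd_add, hy2, add_assoc, add_self, add_zero]

/-- A boundary on the deletion is the boundary of a chain of the deletion. -/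
theorem pull (hK : Low K) (h1 : Ac (lkc K a)) {y : Finset V → ZMod 2} (hy : Ct K y)
    (h : ∀ T, a ∈ T → bd y T = 0) : ∃ y', Ct (del K a) y' ∧ bd y' = bd y := by
  obtain ⟨u, hu, hu2⟩ := h1 (lp a y) (lp_ct hy) (bd_lp h)
  exact ⟨_, push hK hy hu hu2.symm, by rw [bd_add, bd_bd, add_zero]⟩

theorem sp_add {n : ℕ} (hK : Low K) (h1 : Ac (lkc K a)) (h2 : Sp (del K a) n) : Sp K n := by
  obtain ⟨c, hc, hcn, hcb, hcy, hcz⟩ := h2
  refine ⟨c, hc.mono fun T h => h.1, hcn, hcb, ?_, ?_⟩
  · intro y hy hyc
    obtain ⟨y', hy', hy2⟩ := pull hK h1 hy (by rw [hyc]; exact del_zero hc)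
    exact hcy y' hy' (by rw [hy2, hyc])
  · intro z hz hb
    obtain ⟨u, hu, hu2⟩ := h1 (lp a z) (lp_ct hz) (bd_lp (by simp [hb]))
    obtain ⟨y, hy, hy2⟩ := hcz _ (push hK hz hu hu2.symm) (by rw [bd_add, hb, bd_bd, add_zero])
    refine ⟨y + co a u, (hy.mono fun T h => h.1).add (co_ct hu), ?_⟩
    rw [bd_add]
    rcases hy2 with hy2 | hy2
    · left
      rw [hy2, add_assoc, add_self, add_zero]
    · right
      rw [hy2]
      calc z + bd (co a u) + c + bd (co a u) = z + c + (bd (co a u) + bd (co a u)) := by abel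
        _ = z + c := by rw [add_self, add_zero]

/-- The part of degree `q`. -/
def pr (q : ℕ) (z : Finset V → ZMod 2) (T : Finset V) : ZMod 2 := if T.card = q then z T else 0

theorem bd_pr (q : ℕ) (z : Finset V → ZMod 2) : bd (pr (q + 1) z) = pr q (bd z) := by
  funext T
  unfold bd pr
  by_cases h : T.card = q
  · rw [if_pos h]
    refine Finset.sum_congr rfl fun v hv => ?_
    have : v ∉ T := by simpa using hv
    rw [Finset.card_insert_of_notMem this, if_pos (by rw [h])]
  · rw [if_neg h]
    refine Finset.sum_eq_zero fun v hv => ?_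
    have : v ∉ T := by simpa using hv
    rw [Finset.card_insert_of_notMem this, if_neg (by omega)]

theorem pr_ct {q : ℕ} {z : Finset V → ZMod 2} (hz : Ct K z) : Ct K (pr q z) := by
  intro T hT
  apply hz
  intro h
  apply hT
  simp [pr, h]

theorem pr_of {q : ℕ} {z : Finset V → ZMod 2} (hz : ∀ T, z T ≠ 0 → T.card = q) : pr q z = z := by
  funext T
  unfold pr
  by_cases h : T.card = q
  · rw [if_pos h]
  · rw [if_neg h]
    by_contra h1
    exact h (hz T fun h2 => h1 h2.symm)

theorem pr_zero_of {q n : ℕ} (hq : q ≠ n) {z : Finset V → ZMod 2}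
    (hz : ∀ T, z T ≠ 0 → T.card = n) : pr q z = 0 := by
  funext T
  unfold pr
  by_cases h : T.card = q
  · rw [if_pos h]
    by_contra h1
    exact hq (h.symm.trans (hz T h1))
  · rw [if_neg h]
    rfl

theorem pr_add {q : ℕ} (x y : Finset V → ZMod 2) : pr q (x + y) = pr q x + pr q y := by
  funext T
  by_cases h : T.card = q <;> simp [pr, h]

theorem sp_del {n : ℕ} (hK : Low K) (h1 : Ac (lkc K a)) (h2 : Sp K n) : Sp (del K a) n := by
  obtain ⟨c, hc, hcn, hcb, hcy, hcz⟩ := h2
  obtain ⟨u0, hu0, hu02⟩ := h1 (lp a c) (lp_ct hc) (bd_lp (by simp [hcb]))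
  -- the part of `u` of degree `n`
  have hdeg : ∀ T, lp a c T ≠ 0 → T.card + 1 = n := by
    intro T hT
    by_cases ha : a ∈ T
    · exact absurd (by simp [lp, ha]) hT
    · have h3 := hcn (insert a T) (by simpa [lp, ha] using hT)
      rwa [Finset.card_insert_of_notMem ha] at h3
  obtain ⟨u, hu, hu2, hun⟩ : ∃ u, Ct (lkc K a) u ∧ bd u = lp a c ∧ ∀ T, u T ≠ 0 → T.card = n := by
    rcases Nat.eq_zero_or_pos n with h0 | h0
    · refine ⟨0, ct_zero _, ?_, fun T h => absurd rfl h⟩
      rw [bd_zero]
      funext T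
      by_contra h3
      have := hdeg T fun h4 => h3 h4.symm
      omega
    · obtain ⟨m, rfl⟩ : ∃ m, n = m + 1 := ⟨n - 1, by omega⟩
      refine ⟨pr (m + 1) u0, pr_ct hu0, ?_, ?_⟩
      · rw [bd_pr, hu02, pr_of]
        intro T hT
        have := hdeg T hT
        omega
      · intro T hT
        by_contra h3
        exact hT (by simp [pr, h3])
  have hcu : ∀ T, (c + bd (co a u)) T ≠ 0 → T.card = n := by
    intro T hT
    by_cases h3 : c T = 0
    · have h4 : bd (co a u) T ≠ 0 := by
        intro h5
        exact hT (by simp [h3, h5])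
      rw [bd_co (lkc_zero hu)] at h4
      by_cases h5 : u T = 0
      · have h6 : co a (bd u) T ≠ 0 := by
          intro h7
          exact h4 (by simp [h5, h7])
        by_cases ha : a ∈ T
        · have h7 : bd u (T.erase a) ≠ 0 := by simpa [co, ha] using h6
          rw [hu2] at h7
          have := hdeg _ h7
          rw [Finset.card_erase_of_mem ha] at this
          have := Finset.card_pos.mpr ⟨a, ha⟩
          omega
        · exact absurd (by simp [co, ha]) h6
      · exact hun T h5
    · exact hcn T h3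
  refine ⟨c + bd (co a u), push hK hc hu hu2.symm, hcu, by rw [bd_add, hcb, bd_bd, add_zero],
    ?_, ?_⟩
  · intro y hy hyc
    refine hcy (y + co a u) ((hy.mono fun T h => h.1).add (co_ct hu)) ?_
    rw [bd_add, hyc, add_assoc, add_self, add_zero]
  · intro z hz hb
    obtain ⟨y, hy, hy2⟩ := hcz z (hz.mono fun T h => h.1) hb
    rcases hy2 with hy2 | hy2
    · obtain ⟨y', hy', hy3⟩ := pull hK h1 hy (by rw [hy2]; exact del_zero hz)
      exact ⟨y', hy', Or.inl (by rw [hy3, hy2])⟩
    · have h3 : bd (y + co a u) = z + (c + bd (co a u)) := by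
        rw [bd_add, hy2, add_assoc]
      obtain ⟨y', hy', hy4⟩ := pull hK h1 (hy.add (co_ct hu)) (by
        rw [h3]
        intro T hT
        simp only [Pi.add_apply]
        rw [del_zero hz T hT, zero_add]
        exact del_zero (push hK hc hu hu2.symm) T hT)
      exact ⟨y', hy', Or.inr (by rw [hy4, h3])⟩

/-- The suspension. -/
theorem sp_susp {n : ℕ} (hK : Low K) (h1 : Sp (lkc K a) n) (h2 : Ac (del K a)) : Sp K (n + 1) := by
  obtain ⟨c, hc, hcn, hcb, hcy, hcz⟩ := h1
  obtain ⟨e0, he0, he02⟩ := h2 c (lk_del hK hc) hcb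
  obtain ⟨e, he, he2, hen⟩ : ∃ e, Ct (del K a) e ∧ bd e = c ∧ ∀ T, e T ≠ 0 → T.card = n + 1 := by
    refine ⟨pr (n + 1) e0, pr_ct he0, ?_, ?_⟩
    · rw [bd_pr, he02, pr_of hcn]
    · intro T hT
      by_contra h3
      exact hT (by simp [pr, h3])
  have hc0 := lkc_zero hc
  refine ⟨co a c + e, (co_ct hc).add (he.mono fun T h => h.1), ?_, ?_, ?_, ?_⟩
  · intro T hT
    by_cases h3 : e T = 0
    · have h4 : co a c T ≠ 0 := by
        intro h5
        exact hT (by simp [h3, h5])
      by_cases ha : a ∈ T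
      · have h5 : c (T.erase a) ≠ 0 := by simpa [co, ha] using h4
        have := hcn _ h5
        rw [Finset.card_erase_of_mem ha] at this
        have := Finset.card_pos.mpr ⟨a, ha⟩
        omega
      · exact absurd (by simp [co, ha]) h4
    · exact hen T h3
  · rw [bd_add, bd_co hc0, he2, hcb]
    have : co a (0 : Finset V → ZMod 2) = 0 := by
      funext T
      simp [co]
    rw [this, add_zero, add_self]
  · intro y hy hyc
    apply hcy (lp a y) (lp_ct hy)
    rw [← lp_bd, hyc, lp_add, lp_co a hc0, lp_of (del_zero he), add_zero]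
  · intro z hz hb
    have key : ∀ x, Ct K x → bd x = 0 → (∃ u, Ct (lkc K a) u ∧ bd u = lp a x) →
        ∃ y, Ct K y ∧ bd y = x := by
      rintro x hx hxb ⟨u, hu, hu2⟩
      obtain ⟨y, hy, hy2⟩ := h2 _ (push hK hx hu hu2.symm) (by rw [bd_add, hxb, bd_bd, add_zero])
      refine ⟨y + co a u, (hy.mono fun T h => h.1).add (co_ct hu), ?_⟩
      rw [bd_add, hy2, add_assoc, add_self, add_zero]
    obtain ⟨u, hu, hu2⟩ := hcz (lp a z) (lp_ct hz) (bd_lp (by simp [hb]))
    rcases hu2 with hu2 | hu2
    · obtain ⟨y, hy, hy2⟩ := key z hz hb ⟨u, hu, hu2⟩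
      exact ⟨y, hy, Or.inl hy2⟩
    · have h3 : bd (co a c + e) = 0 := by
        rw [bd_add, bd_co hc0, he2, hcb]
        have : co a (0 : Finset V → ZMod 2) = 0 := by
          funext T
          simp [co]
        rw [this, add_zero, add_self]
      obtain ⟨y, hy, hy2⟩ := key (z + (co a c + e))
        (hz.add ((co_ct hc).add (he.mono fun T h => h.1))) (by rw [bd_add, hb, h3, add_zero])
        ⟨u, hu, by rw [lp_add, lp_add, lp_co a hc0, lp_of (del_zero he), add_zero, hu2]⟩
      exact ⟨y, hy, Or.inr hy2⟩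

end

end Pool.Agent.Sph.H78
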