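import Pool.Agent.Helper78_Sph.Jn

/-!
# The graded version of `Sp`, transport along embeddings, joins of homology spheres
-/

namespace Pool.Agent.Sph.H78

open Pool.Agent.Helper30L2

set_option linter.unusedSectionVars false
set_option linter.unusedVariables false

noncomputable section

section graded

variable {V : Type} [DecidableEq V] [Fintype V]

/-- The graded version. -/
def GSp (K : Finset V → Prop) (n : ℕ) : Prop :=
  (∀ q, q ≠ n → ∀ z, Ct K z → (∀ T, z T ≠ 0 → T.card = q) → bd z = 0 →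
    ∃ y, Ct K y ∧ (∀ T, y T ≠ 0 → T.card = q + 1) ∧ bd y = z) ∧
  ∃ c, Ct K c ∧ (∀ T, c T ≠ 0 → T.card = n) ∧ bd c = 0 ∧
    (¬ ∃ y, Ct K y ∧ (∀ T, y T ≠ 0 → T.card = n + 1) ∧ bd y = c) ∧
    ∀ z, Ct K z → (∀ T, z T ≠ 0 → T.card = n) → bd z = 0 →
      (∃ y, Ct K y ∧ (∀ T, y T ≠ 0 → T.card = n + 1) ∧ bd y = z) ∨
      (∃ y, Ct K y ∧ (∀ T, y T ≠ 0 → T.card = n + 1) ∧ bd y = z + c)

theorem pr_deg (q : ℕ) (z : Finset V → ZMod 2) : ∀ T, pr q z T ≠ 0 → T.card = q := by
  intro T hT
  by_contra h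
  exact hT (by simp [pr, h])

theorem sp_of_gsp {K : Finset V → Prop} {n : ℕ} (h : GSp K n) : Sp K n := by
  classical
  obtain ⟨h1, c, hc, hcn, hcb, hcy, hcz⟩ := h
  refine ⟨c, hc, hcn, hcb, ?_, ?_⟩
  · intro y hy hyc
    refine hcy ⟨pr (n + 1) y, pr_ct hy, pr_deg _ _, ?_⟩
    rw [bd_pr, hyc, pr_of hcn]
  · intro z hz hb
    have hprb : ∀ q, bd (pr q z) = 0 := by
      intro q
      cases q with
      | zero =>
        funext T
        unfold bd pr
        refine Finset.sum_eq_zero fun v hv => ?_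
        rw [if_neg]
        have : v ∉ T := by simpa using hv
        rw [Finset.card_insert_of_notMem this]
        omega
      | succ q =>
        rw [bd_pr, hb]
        funext T
        simp [pr]
    obtain ⟨r, hr⟩ : ∃ r : ZMod 2, ∃ y, Ct K y ∧ bd y = pr n z + r • c := by
      rcases hcz (pr n z) (pr_ct hz) (pr_deg _ _) (hprb n) with ⟨y, hy, _, hy2⟩ | ⟨y, hy, _, hy2⟩
      · exact ⟨0, y, hy, by rw [hy2, zero_smul, add_zero]⟩
      · exact ⟨1, y, hy, by rw [hy2, one_smul]⟩
    have hall : ∀ q, ∃ y, Ct K y ∧ bd y = pr q z + if q = n then r • c else 0 := by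
      intro q
      by_cases hq : q = n
      · subst hq
        obtain ⟨y, hy, hy2⟩ := hr
        exact ⟨y, hy, by rw [hy2, if_pos rfl]⟩
      · obtain ⟨y, hy, _, hy2⟩ := h1 q hq _ (pr_ct hz) (pr_deg _ _) (hprb q)
        exact ⟨y, hy, by rw [hy2, if_neg hq, add_zero]⟩
    choose f hf hf2 using hall
    set N := Fintype.card V + n + 1 with hN
    have hsum : ∀ s : Finset ℕ, Ct K (∑ q ∈ s, f q) ∧
        bd (∑ q ∈ s, f q) = ∑ q ∈ s, (pr q z + if q = n then r • c else 0) := by
      intro s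
      induction s using Finset.induction with
      | empty => exact ⟨by simpa using ct_zero K, by simp [bd_zero]⟩
      | insert q s hq ih =>
        rw [Finset.sum_insert hq, Finset.sum_insert hq]
        exact ⟨(hf q).add ih.1, by rw [bd_add, hf2, ih.2]⟩
    have hz2 : ∑ q ∈ Finset.range N, pr q z = z := by
      funext T
      rw [Finset.sum_apply]
      unfold pr
      rw [Finset.sum_ite_eq, if_pos]
      rw [Finset.mem_range]
      have := Finset.card_le_univ T
      omega
    have hc2 : ∑ q ∈ Finset.range N, (if q = n then r • c else 0) = r • c := by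
      rw [Finset.sum_ite_eq', if_pos]
      rw [Finset.mem_range]
      omega
    obtain ⟨g1, g2⟩ := hsum (Finset.range N)
    rw [Finset.sum_add_distrib, hz2, hc2] at g2
    refine ⟨_, g1, ?_⟩
    rcases zmod_cases r with hr0 | hr0
    · left
      rw [g2, hr0, zero_smul, add_zero]
    · right
      rw [g2, hr0, one_smul]

/-- The cliques in `S`. -/
def Cq (Γ : SimpleGraph V) (S : Finset V) (T : Finset V) : Prop :=
  T ⊆ S ∧ Γ.IsClique (T : Set V)

theorem cq_low (Γ : SimpleGraph V) (S : Finset V) : Low (Cq Γ S) := by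
  rintro T ⟨h1, h2⟩ T' hT'
  exact ⟨hT'.trans h1, h2.subset (Finset.coe_subset.mpr hT')⟩

theorem ch_iff {Γ : SimpleGraph V} {S : Finset V} {q : ℕ} {z : Finset V → ZMod 2} :
    Ch Γ S q z ↔ Ct (Cq Γ S) z ∧ ∀ T, z T ≠ 0 → T.card = q := by
  constructor
  · intro h
    exact ⟨fun T hT => ⟨(h T hT).1, (h T hT).2.1⟩, fun T hT => (h T hT).2.2⟩
  · rintro ⟨h1, h2⟩ T hT
    exact ⟨(h1 T hT).1, (h1 T hT).2, h2 T hT⟩

theorem sl_of_sp {Γ : SimpleGraph V} {S : Finset V} {n : ℕ} (h : Sp (Cq Γ S) n) : SL Γ S n := by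
  obtain ⟨c, hc, hcn, hcb, hcy, hcz⟩ := h
  have hbd : ∀ {q : ℕ} {z : Finset V → ZMod 2}, (∀ T, z T ≠ 0 → T.card = q) →
      (∃ y, Ct (Cq Γ S) y ∧ pr q (bd y) = z) → Bd Γ S q z := by
    rintro q z hz ⟨y, hy, hy2⟩
    refine ⟨pr (q + 1) y, ch_iff.mpr ⟨pr_ct hy, pr_deg _ _⟩, ?_⟩
    rw [bd_pr, hy2]
  constructor
  · intro q hq z hz hb
    rw [ch_iff] at hz
    obtain ⟨y, hy, hy2⟩ := hcz z hz.1 hb
    apply hbd hz.2
    refine ⟨y, hy, ?_⟩
    rcases hy2 with hy2 | hy2
    · rw [hy2, pr_of hz.2]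
    · rw [hy2, pr_add, pr_of hz.2, pr_zero_of hq hcn, add_zero]
  · refine ⟨c, ch_iff.mpr ⟨hc, hcn⟩, hcb, ?_, ?_⟩
    · rintro ⟨y, hy, hy2⟩
      rw [ch_iff] at hy
      exact hcy y hy.1 hy2
    · intro z hz hb
      rw [ch_iff] at hz
      obtain ⟨y, hy, hy2⟩ := hcz z hz.1 hb
      rcases hy2 with hy2 | hy2
      · left
        exact hbd hz.2 ⟨y, hy, by rw [hy2, pr_of hz.2]⟩
      · right
        refine hbd ?_ ⟨y, hy, by rw [hy2, pr_add, pr_of hz.2, pr_of hcn]⟩
        intro T hT
        by_cases h3 : z T = 0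
        · apply hcn
          intro h4
          exact hT (by simp [h3, h4])
        · exact hz.2 T h3

theorem sp_of_sl {Γ : SimpleGraph V} {S : Finset V} {n : ℕ} (h : SL Γ S n) : Sp (Cq Γ S) n := by
  apply sp_of_gsp
  obtain ⟨h1, c, hc, hcb, hcy, hcz⟩ := h
  rw [ch_iff] at hc
  refine ⟨?_, c, hc.1, hc.2, hcb, ?_, ?_⟩
  · intro q hq z hz hz2 hb
    obtain ⟨y, hy, hy2⟩ := h1 q hq z (ch_iff.mpr ⟨hz, hz2⟩) hb
    rw [ch_iff] at hy
    exact ⟨y, hy.1, hy.2, hy2⟩
  · rintro ⟨y, hy, hy2, hy3⟩
    exact hcy ⟨y, ch_iff.mpr ⟨hy, hy2⟩, hy3⟩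
  · intro z hz hz2 hb
    rcases hcz z (ch_iff.mpr ⟨hz, hz2⟩) hb with ⟨y, hy, hy2⟩ | ⟨y, hy, hy2⟩
    · rw [ch_iff] at hy
      exact Or.inl ⟨y, hy.1, hy.2, hy2⟩
    · rw [ch_iff] at hy
      exact Or.inr ⟨y, hy.1, hy.2, hy2⟩

/-- The join of two homology spheres is a homology sphere. -/
theorem hsp_join {Γ : SimpleGraph V} : ∀ (N a b : ℕ), a + b = N → ∀ {A B : Finset V},
    (∀ x ∈ A, ∀ y ∈ B, Γ.Adj x y) → Hsp Γ a A → Hsp Γ b B → Hsp Γ (a + b) (A ∪ B) := by
  intro N
  induction N with
  | zero =>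
    intro a b hab A B hadj hA hB
    obtain rfl : a = 0 := by omega
    obtain rfl : b = 0 := by omega
    change A = ∅ at hA
    change B = ∅ at hB
    subst hA hB
    change ∅ ∪ ∅ = ∅
    simp
  | succ N ih =>
    intro a b hab A B hadj hA hB
    cases a with
    | zero =>
      change A = ∅ at hA
      subst hA
      rw [Finset.empty_union, zero_add]
      exact hB
    | succ a =>
      cases b with
      | zero =>
        change B = ∅ at hB
        subst hB
        rw [Finset.union_empty, add_zero]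
        exact hA
      | succ b =>
        have hAB : Disjoint A B := by
          rw [Finset.disjoint_left]
          intro x hx hy
          exact Γ.irrefl (hadj x hx x hy)
        have e : a + 1 + (b + 1) = (a + (b + 1)) + 1 := by omega
        rw [e]
        obtain ⟨hA1, hA2⟩ := hA
        obtain ⟨hB1, hB2⟩ := hB
        refine ⟨?_, ?_⟩
        · rw [← e]
          apply sl_of_sp
          refine (sp_join hAB (cq_low Γ A) (cq_low Γ B) (fun T h => h.1) (fun T h => h.1)
            (sp_of_sl hA1) (sp_of_sl hB1)).congr ?_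
          intro T
          constructor
          · rintro ⟨h1, ⟨_, h2⟩, ⟨_, h3⟩⟩
            refine ⟨h1, ?_⟩
            intro x hx y hy hxy
            have hx' := Finset.mem_union.mp (h1 hx)
            have hy' := Finset.mem_union.mp (h1 hy)
            have mA : ∀ {w}, w ∈ (T : Set V) → w ∈ A → w ∈ ((T ∩ A : Finset V) : Set V) :=
              fun hw hwA => Finset.mem_coe.mpr (Finset.mem_inter.mpr ⟨hw, hwA⟩)
            have mB : ∀ {w}, w ∈ (T : Set V) → w ∈ B → w ∈ ((T ∩ B : Finset V) : Set V) :=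
              fun hw hwA => Finset.mem_coe.mpr (Finset.mem_inter.mpr ⟨hw, hwA⟩)
            rcases hx' with hx' | hx' <;> rcases hy' with hy' | hy'
            · exact h2 (mA hx hx') (mA hy hy') hxy
            · exact hadj _ hx' _ hy'
            · exact (hadj _ hy' _ hx').symm
            · exact h3 (mB hx hx') (mB hy hy') hxy
          · rintro ⟨h1, h2⟩
            exact ⟨h1, ⟨Finset.inter_subset_right, h2.subset (Finset.coe_subset.mpr
              Finset.inter_subset_left)⟩, ⟨Finset.inter_subset_right, h2.subset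
              (Finset.coe_subset.mpr Finset.inter_subset_left)⟩⟩
        · intro x hx
          rw [Finset.mem_union] at hx
          rcases hx with hx | hx
          · have e1 : lk Γ (A ∪ B) x = lk Γ A x ∪ B := by
              ext v
              simp only [mem_lk, Finset.mem_union]
              constructor
              · rintro ⟨h1 | h1, h2⟩
                · exact Or.inl ⟨h1, h2⟩
                · exact Or.inr h1
              · rintro (⟨h1, h2⟩ | h1)
                · exact ⟨Or.inl h1, h2⟩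
                · exact ⟨Or.inr h1, hadj x hx v h1⟩
            rw [e1]
            refine ih a (b + 1) (by omega) ?_ (hA2 x hx) ⟨hB1, hB2⟩
            intro u hu v hv
            exact hadj u (lk_subset A x hu) v hv
          · have e1 : lk Γ (A ∪ B) x = A ∪ lk Γ B x := by
              ext v
              simp only [mem_lk, Finset.mem_union]
              constructor
              · rintro ⟨h1 | h1, h2⟩
                · exact Or.inl h1
                · exact Or.inr ⟨h1, h2⟩
              · rintro (h1 | ⟨h1, h2⟩)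
                · exact ⟨Or.inl h1, (hadj v h1 x hx).symm⟩
                · exact ⟨Or.inr h1, h2⟩
            rw [e1]
            have e2 : a + (b + 1) = (a + 1) + b := by omega
            rw [e2]
            refine ih (a + 1) b (by omega) ?_ ⟨hA1, hA2⟩ (hB2 x hx)
            intro u hu v hv
            exact hadj u hu v (lk_subset B x hv)

end graded

section transport

variable {V₁ V₂ : Type} [DecidableEq V₁] [DecidableEq V₂] [Fintype V₁] [Fintype V₂]
  (f : V₁ ↪ V₂) {K : Finset V₂ → Prop}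

/-- The push forward of a chain. -/
def pus (z : Finset V₁ → ZMod 2) (T : Finset V₂) : ZMod 2 :=
  if (T.preimage f f.injective.injOn).map f = T then z (T.preimage f f.injective.injOn) else 0

/-- The pull back of a chain. -/
def pul (z : Finset V₂ → ZMod 2) (T : Finset V₁) : ZMod 2 := z (T.map f)

theorem preimage_map (T : Finset V₁) : (T.map f).preimage f f.injective.injOn = T := by
  ext v
  simp

theorem pul_pus (z : Finset V₁ → ZMod 2) : pul f (pus f z) = z := by
  funext T
  unfold pul pus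
  rw [preimage_map, if_pos rfl]

theorem pul_add (x y : Finset V₂ → ZMod 2) : pul f (x + y) = pul f x + pul f y := rfl

theorem pul_inj {x y : Finset V₂ → ZMod 2} (hx : ∀ T, x T ≠ 0 → ∃ T₁ : Finset V₁, T₁.map f = T)
    (hy : ∀ T, y T ≠ 0 → ∃ T₁ : Finset V₁, T₁.map f = T) (h : pul f x = pul f y) : x = y := by
  funext T
  by_cases hT : ∃ T₁ : Finset V₁, T₁.map f = T
  · obtain ⟨T₁, rfl⟩ := hT
    exact congrFun h T₁
  · have e1 : x T = 0 := by
      by_contra h1
      exact hT (hx T h1)
    have e2 : y T = 0 := by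
      by_contra h1
      exact hT (hy T h1)
    rw [e1, e2]

theorem sub_map {T : Finset V₁} {T' : Finset V₂} (h : T' ⊆ T.map f) :
    ∃ T₁ : Finset V₁, T₁.map f = T' := by
  refine ⟨T'.preimage f f.injective.injOn, ?_⟩
  ext w
  simp only [Finset.mem_map, Finset.mem_preimage]
  constructor
  · rintro ⟨v, hv, rfl⟩
    exact hv
  · intro hw
    obtain ⟨v, _, rfl⟩ := Finset.mem_map.mp (h hw)
    exact ⟨v, hw, rfl⟩

theorem bd_supp {x : Finset V₂ → ZMod 2} (hx : ∀ T, x T ≠ 0 → ∃ T₁ : Finset V₁, T₁.map f = T) :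
    ∀ T, bd x T ≠ 0 → ∃ T₁ : Finset V₁, T₁.map f = T := by
  intro T hT
  unfold bd at hT
  obtain ⟨v, _, hv⟩ := Finset.exists_ne_zero_of_sum_ne_zero hT
  obtain ⟨T₁, hT₁⟩ := hx _ hv
  refine sub_map (T := T₁) f ?_
  rw [hT₁]
  exact Finset.subset_insert v T

theorem pul_bd {x : Finset V₂ → ZMod 2} (hx : ∀ T, x T ≠ 0 → ∃ T₁ : Finset V₁, T₁.map f = T) :
    pul f (bd x) = bd (pul f x) := by
  funext T
  unfold pul bd
  have e1 : ∑ v ∈ Finset.univ \ T, x (Finset.map f (insert v T)) =
      ∑ w ∈ (Finset.univ \ T).map f, x (insert w (T.map f)) := by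
    rw [Finset.sum_map]
    refine Finset.sum_congr rfl fun v _ => ?_
    rw [Finset.map_insert]
  rw [e1]
  symm
  refine Finset.sum_subset ?_ ?_
  · intro w hw
    obtain ⟨v, hv, rfl⟩ := Finset.mem_map.mp hw
    simp only [Finset.mem_sdiff, Finset.mem_univ, true_and] at hv ⊢
    intro h
    obtain ⟨v', hv', h'⟩ := Finset.mem_map.mp h
    rw [f.injective h'] at hv'
    exact hv hv'
  · intro w hw hw'
    by_contra h
    obtain ⟨T₁, hT₁⟩ := hx _ h
    have : w ∈ T₁.map f := by
      rw [hT₁]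
      exact Finset.mem_insert_self _ _
    obtain ⟨v, hv, rfl⟩ := Finset.mem_map.mp this
    apply hw'
    rw [Finset.mem_map]
    refine ⟨v, ?_, rfl⟩
    simp only [Finset.mem_sdiff, Finset.mem_univ, true_and] at hw ⊢
    intro h2
    exact hw (Finset.mem_map_of_mem f h2)

theorem pus_ct (hK : ∀ T, K T → ∃ T₁ : Finset V₁, T₁.map f = T) {z : Finset V₁ → ZMod 2}
    (hz : Ct (fun T => K (T.map f)) z) : Ct K (pus f z) := by
  intro T hT
  unfold pus at hT
  by_cases h : (T.preimage f f.injective.injOn).map f = T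
  · rw [if_pos h] at hT
    have := hz _ hT
    simp only at this
    rwa [h] at this
  · exact absurd (by rw [if_neg h]) hT

/-- Transport along an embedding. -/
theorem sp_map (hK : ∀ T, K T → ∃ T₁ : Finset V₁, T₁.map f = T) {n : ℕ} :
    Sp (fun T => K (T.map f)) n ↔ Sp K n := by
  have hs : ∀ {x : Finset V₂ → ZMod 2}, Ct K x → ∀ T, x T ≠ 0 →
      ∃ T₁ : Finset V₁, T₁.map f = T := fun hx T hT => hK T (hx T hT)
  have hpulct : ∀ {x : Finset V₂ → ZMod 2}, Ct K x → Ct (fun T => K (T.map f)) (pul f x) :=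
    fun hx T hT => hx _ hT
  constructor
  · rintro ⟨c, hc, hcn, hcb, hcy, hcz⟩
    have hc' := pus_ct f hK hc
    refine ⟨pus f c, hc', ?_, ?_, ?_, ?_⟩
    · intro T hT
      obtain ⟨T₁, rfl⟩ := hs hc' T hT
      have h1 : c T₁ ≠ 0 := by
        have := congrFun (pul_pus f c) T₁
        unfold pul at this
        rwa [this] at hT
      rw [Finset.card_map]
      exact hcn T₁ h1
    · refine pul_inj f (bd_supp f (hs hc')) (fun T h => absurd rfl h) ?_
      rw [pul_bd f (hs hc'), pul_pus, hcb]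
      rfl
    · intro y hy hyc
      refine hcy (pul f y) (hpulct hy) ?_
      rw [← pul_bd f (hs hy), hyc, pul_pus]
    · intro z hz hb
      obtain ⟨y, hy, hy2⟩ := hcz (pul f z) (hpulct hz) (by
        rw [← pul_bd f (hs hz), hb]
        rfl)
      have hy' := pus_ct f hK hy
      refine ⟨pus f y, hy', ?_⟩
      rcases hy2 with hy2 | hy2
      · left
        refine pul_inj f (bd_supp f (hs hy')) (hs hz) ?_
        rw [pul_bd f (hs hy'), pul_pus, hy2]
      · right
        refine pul_inj f (bd_supp f (hs hy')) (hs (hz.add hc')) ?_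
        rw [pul_bd f (hs hy'), pul_pus, hy2, pul_add, pul_pus]
  · rintro ⟨c, hc, hcn, hcb, hcy, hcz⟩
    refine ⟨pul f c, hpulct hc, ?_, ?_, ?_, ?_⟩
    · intro T hT
      have := hcn _ hT
      rwa [Finset.card_map] at this
    · rw [← pul_bd f (hs hc), hcb]
      rfl
    · intro y hy hyc
      have hy' := pus_ct f hK hy
      refine hcy _ hy' ?_
      refine pul_inj f (bd_supp f (hs hy')) (hs hc) ?_
      rw [pul_bd f (hs hy'), pul_pus, hyc]
    · intro z hz hb
      have hz' := pus_ct f hK hz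
      obtain ⟨y, hy, hy2⟩ := hcz _ hz' (by
        refine pul_inj f (bd_supp f (hs hz')) (fun T h => absurd rfl h) ?_
        rw [pul_bd f (hs hz'), pul_pus, hb]
        rfl)
      refine ⟨pul f y, hpulct hy, ?_⟩
      rw [← pul_bd f (hs hy)]
      rcases hy2 with hy2 | hy2
      · left
        rw [hy2, pul_pus]
      · right
        rw [hy2, pul_add, pul_pus]

end transport

end

end Pool.Agent.Sph.H78
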