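import Pool.Agent.Helper78_Sph.Cx

/-!
# Joins of complexes modulo two, and the graded version of `Sp`
-/

namespace Pool.Agent.Sph.H78

open Pool.Agent.Helper30L2

set_option linter.unusedSectionVars false
set_option linter.unusedVariables false

noncomputable section

variable {V : Type} [DecidableEq V] [Fintype V]

section join

variable {A B : Finset V} {K₁ K₂ : Finset V → Prop}

/-- The join of a complex on `A` and a complex on `B`. -/
def Jo (A B : Finset V) (K₁ K₂ : Finset V → Prop) (T : Finset V) : Prop :=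
  T ⊆ A ∪ B ∧ K₁ (T ∩ A) ∧ K₂ (T ∩ B)

/-- The slice at `β ⊆ B`. -/
def sl (A : Finset V) (β : Finset V) (z : Finset V → ZMod 2) (α : Finset V) : ZMod 2 :=
  if α ⊆ A then z (α ∪ β) else 0

/-- The product chain. -/
def te (A B : Finset V) (u w : Finset V → ZMod 2) (T : Finset V) : ZMod 2 :=
  if T ⊆ A ∪ B then u (T ∩ A) * w (T ∩ B) else 0

theorem inter_left (hAB : Disjoint A B) {α β : Finset V} (hα : α ⊆ A) (hβ : β ⊆ B) :
    (α ∪ β) ∩ A = α := by
  ext x
  have h1 := @hα x
  have h2 := @hβ x
  have h3 : x ∈ A → x ∉ B := fun h => Finset.disjoint_left.mp hAB h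
  simp only [Finset.mem_inter, Finset.mem_union]
  tauto

theorem inter_right (hAB : Disjoint A B) {α β : Finset V} (hα : α ⊆ A) (hβ : β ⊆ B) :
    (α ∪ β) ∩ B = β := by
  ext x
  have h1 := @hα x
  have h2 := @hβ x
  have h3 : x ∈ A → x ∉ B := fun h => Finset.disjoint_left.mp hAB h
  simp only [Finset.mem_inter, Finset.mem_union]
  tauto

theorem union_inter {T : Finset V} (hT : T ⊆ A ∪ B) : (T ∩ A) ∪ (T ∩ B) = T := by
  rw [← Finset.inter_union_distrib_left]
  exact Finset.inter_eq_left.mpr hT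

theorem sl_add (β : Finset V) (x y : Finset V → ZMod 2) :
    sl A β (x + y) = sl A β x + sl A β y := by
  funext α
  by_cases h : α ⊆ A <;> simp [sl, h]

theorem sl_ext {z z' : Finset V → ZMod 2} (hz : ∀ T, z T ≠ 0 → T ⊆ A ∪ B)
    (hz' : ∀ T, z' T ≠ 0 → T ⊆ A ∪ B) (h : ∀ β ⊆ B, sl A β z = sl A β z') : z = z' := by
  funext T
  by_cases hT : T ⊆ A ∪ B
  · have h1 := congrFun (h (T ∩ B) Finset.inter_subset_right) (T ∩ A)
    unfold sl at h1
    rwa [if_pos Finset.inter_subset_right, if_pos Finset.inter_subset_right, union_inter hT] at h1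
  · have e1 : z T = 0 := by
      by_contra h1
      exact hT (hz T h1)
    have e2 : z' T = 0 := by
      by_contra h1
      exact hT (hz' T h1)
    rw [e1, e2]

theorem supp_bd {z : Finset V → ZMod 2} (hz : ∀ T, z T ≠ 0 → T ⊆ A ∪ B) :
    ∀ T, bd z T ≠ 0 → T ⊆ A ∪ B := by
  intro T hT
  unfold bd at hT
  obtain ⟨v, _, hv⟩ := Finset.exists_ne_zero_of_sum_ne_zero hT
  exact (Finset.subset_insert v T).trans (hz _ hv)

theorem sl_bd (hAB : Disjoint A B) {z : Finset V → ZMod 2} (hz : ∀ T, z T ≠ 0 → T ⊆ A ∪ B)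
    {β : Finset V} (hβ : β ⊆ B) :
    sl A β (bd z) = bd (sl A β z) + ∑ v ∈ B \ β, sl A (insert v β) z := by
  funext α
  rw [Pi.add_apply, Finset.sum_apply]
  by_cases hα : α ⊆ A
  · have e1 : sl A β (bd z) α = ∑ v ∈ (A \ α) ∪ (B \ β), z (insert v (α ∪ β)) := by
      unfold sl bd
      rw [if_pos hα]
      symm
      refine Finset.sum_subset ?_ ?_
      · intro v hv
        have h1 := @hα v
        have h2 := @hβ v
        have h3 : v ∈ A → v ∉ B := fun h => Finset.disjoint_left.mp hAB h
        simp only [Finset.mem_union, Finset.mem_sdiff, Finset.mem_univ, true_and, not_or] at hv ⊢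
        tauto
      · intro v hv hv'
        by_contra h1
        have h2 := hz _ h1 (Finset.mem_insert_self v _)
        simp only [Finset.mem_union, Finset.mem_sdiff, Finset.mem_univ, true_and, not_or] at hv hv' h2
        tauto
    have hd : Disjoint (A \ α) (B \ β) :=
      Finset.disjoint_of_subset_left Finset.sdiff_subset
        (Finset.disjoint_of_subset_right Finset.sdiff_subset hAB)
    rw [e1, Finset.sum_union hd]
    congr 1
    · unfold bd
      have e2 : ∑ v ∈ Finset.univ \ α, sl A β z (insert v α) = ∑ v ∈ A \ α, sl A β z (insert v α) := by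
        symm
        refine Finset.sum_subset ?_ ?_
        · intro v hv
          simp only [Finset.mem_sdiff, Finset.mem_univ, true_and] at hv ⊢
          exact hv.2
        · intro v hv hv'
          unfold sl
          rw [if_neg]
          intro h1
          have h2 := h1 (Finset.mem_insert_self v α)
          simp only [Finset.mem_sdiff, Finset.mem_univ, true_and] at hv hv'
          exact hv' ⟨h2, hv⟩
      rw [e2]
      refine Finset.sum_congr rfl fun v hv => ?_
      rw [Finset.mem_sdiff] at hv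
      unfold sl
      rw [if_pos (Finset.insert_subset hv.1 hα), Finset.insert_union]
    · refine Finset.sum_congr rfl fun v _ => ?_
      unfold sl
      rw [if_pos hα, Finset.union_insert]
  · have e1 : ∀ β' (x : Finset V → ZMod 2), sl A β' x α = 0 := fun β' x => by simp [sl, hα]
    have e2 : bd (sl A β z) α = 0 := by
      unfold bd
      refine Finset.sum_eq_zero fun v _ => ?_
      unfold sl
      rw [if_neg]
      intro h1
      exact hα ((Finset.subset_insert v α).trans h1)
    rw [e1, e2, zero_add, Finset.sum_eq_zero fun v _ => e1 _ _]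

theorem sl_te (hAB : Disjoint A B) {u : Finset V → ZMod 2} (hu : ∀ T, u T ≠ 0 → T ⊆ A)
    (w : Finset V → ZMod 2) {β : Finset V} (hβ : β ⊆ B) : sl A β (te A B u w) = w β • u := by
  funext α
  rw [Pi.smul_apply, smul_eq_mul]
  unfold sl
  by_cases hα : α ⊆ A
  · rw [if_pos hα]
    unfold te
    rw [if_pos (Finset.union_subset_union hα hβ), inter_left hAB hα hβ, inter_right hAB hα hβ,
      mul_comm]
  · rw [if_neg hα]
    have : u α = 0 := by
      by_contra h
      exact hα (hu α h)
    rw [this, mul_zero]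

theorem te_supp {u w : Finset V → ZMod 2} : ∀ T, te A B u w T ≠ 0 → T ⊆ A ∪ B := by
  intro T hT
  by_contra h
  exact hT (by simp [te, h])

theorem te_ct {u w : Finset V → ZMod 2} (hu : Ct K₁ u) (hw : Ct K₂ w) :
    Ct (Jo A B K₁ K₂) (te A B u w) := by
  intro T hT
  have h := te_supp T hT
  unfold te at hT
  rw [if_pos h] at hT
  exact ⟨h, hu _ (left_ne_zero_of_mul hT), hw _ (right_ne_zero_of_mul hT)⟩

theorem sl_ct (hAB : Disjoint A B) {z : Finset V → ZMod 2} (hz : Ct (Jo A B K₁ K₂) z)
    {β : Finset V} (hβ : β ⊆ B) : Ct K₁ (sl A β z) := by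
  intro α hα
  by_cases h : α ⊆ A
  · unfold sl at hα
    rw [if_pos h] at hα
    have h1 := (hz _ hα).2.1
    rwa [inter_left hAB h hβ] at h1
  · exact absurd (by simp [sl, h]) hα

theorem sl_zero_of_not (hAB : Disjoint A B) {z : Finset V → ZMod 2} (hz : Ct (Jo A B K₁ K₂) z)
    {β : Finset V} (hβ : β ⊆ B) (h : ¬ K₂ β) : sl A β z = 0 := by
  funext α
  by_contra hα
  by_cases h' : α ⊆ A
  · unfold sl at hα
    rw [if_pos h'] at hα
    have h1 := (hz _ hα).2.2
    rw [inter_right hAB h' hβ] at h1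
    exact h h1
  · exact hα (by simp [sl, h'])

theorem jo_supp {z : Finset V → ZMod 2} (hz : Ct (Jo A B K₁ K₂) z) : ∀ T, z T ≠ 0 → T ⊆ A ∪ B :=
  fun T hT => (hz T hT).1

theorem bd_ct {K : Finset V → Prop} (hK : Low K) {y : Finset V → ZMod 2} (hy : Ct K y) :
    Ct K (bd y) := by
  intro T hT
  unfold bd at hT
  obtain ⟨v, _, hv⟩ := Finset.exists_ne_zero_of_sum_ne_zero hT
  exact hK _ (hy _ hv) _ (Finset.subset_insert v T)

theorem jo_low (h1 : Low K₁) (h2 : Low K₂) : Low (Jo A B K₁ K₂) := by
  rintro T ⟨ha, hb, hc⟩ T' hT'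
  exact ⟨hT'.trans ha, h1 _ hb _ (Finset.inter_subset_inter_right hT'),
    h2 _ hc _ (Finset.inter_subset_inter_right hT')⟩

theorem zmod_cases : ∀ x : ZMod 2, x = 0 ∨ x = 1 := by decide

/-- The normal form of chains of the join whose boundary has slices that are multiples of the
fundamental cycle. -/
theorem normal (hAB : Disjoint A B) (hL1 : Low K₁) (hL2 : Low K₂) {c₁ : Finset V → ZMod 2}
    (hcy : ∀ y, Ct K₁ y → bd y ≠ c₁)
    (hcz : ∀ z, Ct K₁ z → bd z = 0 → ∃ y, Ct K₁ y ∧ (bd y = z ∨ bd y = z + c₁))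
    (hK1 : ∀ T, K₁ T → T ⊆ A)
    {z : Finset V → ZMod 2} (hz : Ct (Jo A B K₁ K₂) z) {lam : Finset V → ZMod 2}
    (hlam : ∀ β ⊆ B, sl A β (bd z) = lam β • c₁) :
    ∃ y, Ct (Jo A B K₁ K₂) y ∧ ∃ w : Finset V → ZMod 2,
      ∀ β ⊆ B, sl A β (z + bd y) = w β • c₁ := by
  classical
  have key : ∀ r : ℕ, ∃ y, Ct (Jo A B K₁ K₂) y ∧ ∃ w : Finset V → ZMod 2,
      ∀ β ⊆ B, B.card + 1 ≤ β.card + r → sl A β (z + bd y) = w β • c₁ := by
    intro r
    induction r with
    | zero =>
      refine ⟨0, ct_zero _, 0, ?_⟩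
      intro β hβ hr
      have := Finset.card_le_card hβ
      omega
    | succ r ih =>
      obtain ⟨y, hy, w, hw⟩ := ih
      have hct' : Ct (Jo A B K₁ K₂) (z + bd y) := hz.add (bd_ct (jo_low hL1 hL2) hy)
      have hslz : ∀ β, β ⊆ B → B.card + 1 = β.card + (r + 1) →
          bd (sl A β (z + bd y)) = 0 := by
        intro β hβ hr
        have e1 := sl_bd hAB (jo_supp hct') hβ
        have e2 : bd (z + bd y) = bd z := by rw [bd_add, bd_bd, add_zero]
        rw [e2, hlam β hβ] at e1
        have e3 : ∑ v ∈ B \ β, sl A (insert v β) (z + bd y) =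
            (∑ v ∈ B \ β, w (insert v β)) • c₁ := by
          rw [Finset.sum_smul]
          refine Finset.sum_congr rfl fun v hv => ?_
          rw [Finset.mem_sdiff] at hv
          apply hw _ (Finset.insert_subset hv.1 hβ)
          rw [Finset.card_insert_of_notMem hv.2]
          omega
        rw [e3] at e1
        have e4 : bd (sl A β (z + bd y)) = (lam β + ∑ v ∈ B \ β, w (insert v β)) • c₁ := by
          rw [add_smul, e1, add_assoc, add_self, add_zero]
        rcases zmod_cases (lam β + ∑ v ∈ B \ β, w (insert v β)) with h | h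
        · rw [e4, h, zero_smul]
        · rw [h, one_smul] at e4
          exact absurd e4 (hcy _ (sl_ct hAB hct' hβ))
      -- choose chains of the first factor for all `β` of the new level
      have hch : ∀ β, ∃ u : Finset V → ZMod 2, ∃ ρ : ZMod 2, Ct K₁ u ∧ (¬ K₂ β → u = 0) ∧
          (β ⊆ B → B.card + 1 = β.card + (r + 1) → sl A β (z + bd y) + bd u = ρ • c₁) := by
        intro β
        by_cases hβ : β ⊆ B ∧ B.card + 1 = β.card + (r + 1) ∧ K₂ β
        · obtain ⟨u, hu, hu2⟩ := hcz _ (sl_ct hAB hct' hβ.1) (hslz β hβ.1 hβ.2.1)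
          rcases hu2 with hu2 | hu2
          · exact ⟨u, 0, hu, fun h => absurd hβ.2.2 h, fun _ _ => by
              rw [hu2, add_self, zero_smul]⟩
          · exact ⟨u, 1, hu, fun h => absurd hβ.2.2 h, fun _ _ => by
              rw [hu2, ← add_assoc, add_self, zero_add, one_smul]⟩
        · refine ⟨0, 0, ct_zero _, fun _ => rfl, fun h1 h2 => ?_⟩
          have h3 : ¬ K₂ β := fun h => hβ ⟨h1, h2, h⟩
          rw [sl_zero_of_not hAB hct' h1 h3, bd_zero, zero_smul, add_zero]
      choose u ρ hu hu0 hu2 using hch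
      set y' : Finset V → ZMod 2 := fun T =>
        if T ⊆ A ∪ B ∧ B.card + 1 = (T ∩ B).card + (r + 1) then u (T ∩ B) (T ∩ A) else 0 with hy'
      have hy'ct : Ct (Jo A B K₁ K₂) y' := by
        intro T hT
        by_cases h : T ⊆ A ∪ B ∧ B.card + 1 = (T ∩ B).card + (r + 1)
        · have h3 : u (T ∩ B) (T ∩ A) ≠ 0 := by
            simpa only [hy', if_pos h] using hT
          refine ⟨h.1, hu _ _ h3, ?_⟩
          by_contra h4
          exact h3 (by rw [hu0 _ h4]; rfl)
        · exact absurd (by simp only [hy', if_neg h]) hT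
      have hsl' : ∀ β ⊆ B, sl A β y' = if B.card + 1 = β.card + (r + 1) then u β else 0 := by
        intro β hβ
        funext α
        unfold sl
        by_cases hα : α ⊆ A
        · rw [if_pos hα]
          simp only [hy']
          rw [inter_left hAB hα hβ, inter_right hAB hα hβ]
          by_cases h : B.card + 1 = β.card + (r + 1)
          · rw [if_pos ⟨Finset.union_subset_union hα hβ, h⟩, if_pos h]
          · rw [if_neg fun h' => h h'.2, if_neg h]
            rfl
        · rw [if_neg hα]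
          have h3 : u β α = 0 := by
            by_contra h4
            exact hα (hK1 _ (hu β α h4))
          by_cases h : B.card + 1 = β.card + (r + 1)
          · rw [if_pos h, h3]
          · rw [if_neg h]
            rfl
      refine ⟨y + y', hy.add hy'ct, fun β => if B.card + 1 = β.card + (r + 1) then ρ β else w β, ?_⟩
      intro β hβ hr
      have e1 : z + bd (y + y') = (z + bd y) + bd y' := by rw [bd_add, add_assoc]
      have e2 : ∑ v ∈ B \ β, sl A (insert v β) y' = 0 := by
        refine Finset.sum_eq_zero fun v hv => ?_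
        rw [Finset.mem_sdiff] at hv
        rw [hsl' _ (Finset.insert_subset hv.1 hβ), if_neg]
        rw [Finset.card_insert_of_notMem hv.2]
        omega
      rw [e1, sl_add, sl_bd hAB (jo_supp hy'ct) hβ, e2, add_zero, hsl' β hβ]
      by_cases h : B.card + 1 = β.card + (r + 1)
      · rw [if_pos h]
        simp only [if_pos h]
        exact hu2 β hβ h
      · rw [if_neg h]
        simp only [if_neg h]
        rw [bd_zero, add_zero]
        exact hw β hβ (by omega)
  obtain ⟨y, hy, w, hw⟩ := key (B.card + 1)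
  exact ⟨y, hy, w, fun β hβ => hw β hβ (by omega)⟩

/-- The join of two spheres is a sphere. -/
theorem sp_join (hAB : Disjoint A B) (hL1 : Low K₁) (hL2 : Low K₂) (hK1 : ∀ T, K₁ T → T ⊆ A)
    (hK2 : ∀ T, K₂ T → T ⊆ B) {n₁ n₂ : ℕ} (h1 : Sp K₁ n₁) (h2 : Sp K₂ n₂) :
    Sp (Jo A B K₁ K₂) (n₁ + n₂) := by
  classical
  obtain ⟨c₁, hc₁, hcn₁, hcb₁, hcy₁, hcz₁⟩ := h1
  obtain ⟨c₂, hc₂, hcn₂, hcb₂, hcy₂, hcz₂⟩ := h2
  have hA : ∀ T, c₁ T ≠ 0 → T ⊆ A := fun T hT => hK1 T (hc₁ T hT)
  have hlow := jo_low (A := A) (B := B) hL1 hL2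
  have hcJ : Ct (Jo A B K₁ K₂) (te A B c₁ c₂) := te_ct hc₁ hc₂
  -- restricting sums to `B`
  have hres : ∀ w : Finset V → ZMod 2, (∀ T, w T ≠ 0 → T ⊆ B) → ∀ β,
      bd w β = ∑ v ∈ B \ β, w (insert v β) := by
    intro w hw β
    unfold bd
    symm
    refine Finset.sum_subset (Finset.sdiff_subset_sdiff (Finset.subset_univ _) subset_rfl) ?_
    intro v hv hv'
    by_contra h
    have h3 := hw _ h (Finset.mem_insert_self v β)
    simp only [Finset.mem_sdiff, Finset.mem_univ, true_and] at hv hv'
    exact hv' ⟨h3, hv⟩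
  have hslc : ∀ β ⊆ B, sl A β (te A B c₁ c₂) = c₂ β • c₁ := fun β hβ => sl_te hAB hA c₂ hβ
  -- slices of the boundary of a chain in normal form
  have hbdn : ∀ {x : Finset V → ZMod 2} {w : Finset V → ZMod 2}, Ct (Jo A B K₁ K₂) x →
      (∀ β ⊆ B, sl A β x = w β • c₁) → ∀ β ⊆ B,
      sl A β (bd x) = (∑ v ∈ B \ β, w (insert v β)) • c₁ := by
    intro x w hx hw β hβ
    rw [sl_bd hAB (jo_supp hx) hβ, hw β hβ, bd_smul, hcb₁, smul_zero, zero_add, Finset.sum_smul]
    refine Finset.sum_congr rfl fun v hv => ?_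
    rw [Finset.mem_sdiff] at hv
    exact hw _ (Finset.insert_subset hv.1 hβ)
  -- the fundamental cycle is not zero
  have hc1 : c₁ ≠ 0 := by
    intro h
    exact hcy₁ 0 (ct_zero _) (by rw [bd_zero, h])
  have hinj : ∀ x y : ZMod 2, x • c₁ = y • c₁ → x = y := by
    intro x y h
    obtain ⟨T, hT⟩ : ∃ T, c₁ T ≠ 0 := by
      by_contra hcon
      push Not at hcon
      exact hc1 (funext hcon)
    have h3 := congrFun h T
    simp only [Pi.smul_apply, smul_eq_mul] at h3
    exact mul_right_cancel₀ hT h3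
  -- the coefficients of a normal form give a chain of the second factor
  have hcoef : ∀ {x : Finset V → ZMod 2} {w : Finset V → ZMod 2}, Ct (Jo A B K₁ K₂) x →
      (∀ β ⊆ B, sl A β x = w β • c₁) → ∃ w', Ct K₂ w' ∧ (∀ β ⊆ B, w' β = w β) := by
    intro x w hx hw
    refine ⟨fun β => if K₂ β then w β else 0, ?_, ?_⟩
    · intro β hβ
      by_contra h
      exact hβ (by simp [h])
    · intro β hβ
      by_cases h : K₂ β
      · simp [h]
      · simp only [if_neg h]
        apply hinj
        rw [zero_smul, ← hw β hβ, sl_zero_of_not hAB hx hβ h]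
  refine ⟨te A B c₁ c₂, hcJ, ?_, ?_, ?_, ?_⟩
  · intro T hT
    have h := te_supp T hT
    unfold te at hT
    rw [if_pos h] at hT
    have e1 := hcn₁ _ (left_ne_zero_of_mul hT)
    have e2 := hcn₂ _ (right_ne_zero_of_mul hT)
    have e3 : T.card = (T ∩ A).card + (T ∩ B).card := by
      rw [← Finset.card_union_of_disjoint, union_inter h]
      exact Finset.disjoint_of_subset_left Finset.inter_subset_right
        (Finset.disjoint_of_subset_right Finset.inter_subset_right hAB)
    omega
  · refine sl_ext (supp_bd (jo_supp hcJ)) (fun T h => absurd rfl h) ?_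
    intro β hβ
    rw [hbdn hcJ hslc β hβ, ← hres c₂ (fun T hT => hK2 T (hc₂ T hT)), hcb₂, Pi.zero_apply,
      zero_smul]
    funext α
    simp [sl]
  · intro y hy hyc
    obtain ⟨y', hy', w, hw⟩ := normal hAB hL1 hL2 hcy₁ hcz₁ hK1 hy (lam := c₂) (by
      intro β hβ
      rw [hyc, hslc β hβ])
    have hyy : Ct (Jo A B K₁ K₂) (y + bd y') := hy.add (bd_ct hlow hy')
    obtain ⟨w', hw', hww⟩ := hcoef hyy hw
    refine hcy₂ w' hw' ?_
    funext β
    rw [hres w' (fun T hT => hK2 T (hw' T hT))]
    by_cases hβ : β ⊆ B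
    · apply hinj
      rw [← hslc β hβ, ← hyc]
      have e1 : bd y = bd (y + bd y') := by rw [bd_add, bd_bd, add_zero]
      rw [e1, hbdn hyy hw β hβ]
      congr 1
      refine Finset.sum_congr rfl fun v hv => ?_
      rw [Finset.mem_sdiff] at hv
      exact hww _ (Finset.insert_subset hv.1 hβ)
    · have e1 : c₂ β = 0 := hc₂.eq_zero fun h => hβ (hK2 _ h)
      rw [e1]
      refine Finset.sum_eq_zero fun v _ => ?_
      exact hw'.eq_zero fun h => hβ ((Finset.subset_insert v β).trans (hK2 _ h))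
  · intro z hz hb
    obtain ⟨y, hy, w, hw⟩ := normal hAB hL1 hL2 hcy₁ hcz₁ hK1 hz (lam := 0) (by
      intro β hβ
      rw [hb, Pi.zero_apply, zero_smul]
      funext α
      simp [sl])
    have hzy : Ct (Jo A B K₁ K₂) (z + bd y) := hz.add (bd_ct hlow hy)
    obtain ⟨w', hw', hww⟩ := hcoef hzy hw
    have hwb : bd w' = 0 := by
      funext β
      rw [hres w' (fun T hT => hK2 T (hw' T hT))]
      by_cases hβ : β ⊆ B
      · apply hinj
        have e0 : bd (z + bd y) = 0 := by rw [bd_add, bd_bd, hb, add_zero]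
        have e1 := hbdn hzy hw β hβ
        rw [e0] at e1
        have e2 : sl A β (0 : Finset V → ZMod 2) = 0 := by
          funext α
          simp [sl]
        rw [e2] at e1
        rw [Pi.zero_apply, zero_smul, e1]
        congr 1
        refine Finset.sum_congr rfl fun v hv => ?_
        rw [Finset.mem_sdiff] at hv
        exact hww _ (Finset.insert_subset hv.1 hβ)
      · refine Finset.sum_eq_zero fun v _ => ?_
        exact hw'.eq_zero fun h => hβ ((Finset.subset_insert v β).trans (hK2 _ h))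
    obtain ⟨x, hx, hx2⟩ := hcz₂ w' hw' hwb
    have hxJ : Ct (Jo A B K₁ K₂) (te A B c₁ x) := te_ct hc₁ hx
    have hslx : ∀ β ⊆ B, sl A β (bd (te A B c₁ x)) = (bd x β) • c₁ := by
      intro β hβ
      rw [hbdn hxJ (fun β hβ => sl_te hAB hA x hβ) β hβ, ← hres x (fun T hT => hK2 T (hx T hT))]
    have hall : ∀ β ⊆ B, sl A β (z + bd y + bd (te A B c₁ x)) = (w' β + bd x β) • c₁ := by
      intro β hβ
      rw [sl_add, hw β hβ, hslx β hβ, add_smul, hww β hβ]
    refine ⟨y + te A B c₁ x, hy.add hxJ, ?_⟩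
    have hsupp : ∀ T, (z + bd y + bd (te A B c₁ x)) T ≠ 0 → T ⊆ A ∪ B :=
      jo_supp (hzy.add (bd_ct hlow hxJ))
    rcases hx2 with hx2 | hx2
    · left
      have h3 : z + bd y + bd (te A B c₁ x) = 0 := by
        refine sl_ext hsupp (fun T h => absurd rfl h) ?_
        intro β hβ
        rw [hall β hβ, hx2, CharTwo.add_self_eq_zero, zero_smul]
        funext α
        simp [sl]
      rw [bd_add]
      exact (eq_of_add (by rw [← add_assoc]; exact h3)).symm
    · right
      have h3 : z + bd y + bd (te A B c₁ x) = te A B c₁ c₂ := by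
        refine sl_ext hsupp te_supp ?_
        intro β hβ
        rw [hall β hβ, hslc β hβ, hx2, Pi.add_apply, ← add_assoc, CharTwo.add_self_eq_zero,
          zero_add]
      rw [bd_add, ← h3]
      calc bd y + bd (te A B c₁ x) = (z + z) + (bd y + bd (te A B c₁ x)) := by
            rw [add_self, zero_add]
        _ = z + (z + bd y + bd (te A B c₁ x)) := by abel

end join

end

end Pool.Agent.Sph.H78
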