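import Pool.Agent.Helper78_Sph.Gr

/-!
# The barycentric subdivision of the link of a simplex
-/

namespace Pool.Agent.Sph.H78

open Pool.Agent.Helper30L2

set_option linter.unusedSectionVars false
set_option linter.unusedVariables false

noncomputable section

variable {U : Type} [DecidableEq U] [Fintype U]

/-- The mapping cylinder: simplices `α` of the link of `ρ ∪ β` with vertices in `R`, together with
chains of elements of `Q` that contain `α` and `β`. -/
def Nc (K : Finset U → Prop) (ρ β : Finset U) (Q : Finset (Finset U)) (R : Finset U)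
    (T : Finset (U ⊕ Finset U)) : Prop :=
  T.toLeft ⊆ R ∧ Disjoint (ρ ∪ β) T.toLeft ∧ K (ρ ∪ β ∪ T.toLeft) ∧
    (∀ τ ∈ T.toRight, τ ∈ Q ∧ β ∪ T.toLeft ⊆ τ) ∧
    ∀ τ ∈ T.toRight, ∀ τ' ∈ T.toRight, τ ⊆ τ' ∨ τ' ⊆ τ

variable {K : Finset U → Prop} {ρ β : Finset U} {Q : Finset (Finset U)} {R : Finset U}

theorem toLeft_sub {T T' : Finset (U ⊕ Finset U)} (h : T' ⊆ T) : T'.toLeft ⊆ T.toLeft := by
  intro x hx
  rw [Finset.mem_toLeft] at hx ⊢
  exact h hx

theorem toRight_sub {T T' : Finset (U ⊕ Finset U)} (h : T' ⊆ T) : T'.toRight ⊆ T.toRight := by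
  intro x hx
  rw [Finset.mem_toRight] at hx ⊢
  exact h hx

theorem nc_low (hK : Low K) : Low (Nc K ρ β Q R) := by
  rintro T ⟨h1, h2, h3, h4, h5⟩ T' hT'
  have hl := toLeft_sub hT'
  have hr := toRight_sub hT'
  refine ⟨hl.trans h1, Finset.disjoint_of_subset_right hl h2,
    hK _ h3 _ (Finset.union_subset_union subset_rfl hl), ?_, ?_⟩
  · intro τ hτ
    exact ⟨(h4 τ (hr hτ)).1, (Finset.union_subset_union subset_rfl hl).trans (h4 τ (hr hτ)).2⟩
  · intro τ hτ τ' hτ'
    exact h5 τ (hr hτ) τ' (hr hτ')

/-- Stage 1, one step: a minimal element of `Q` has a link that is a cone. -/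
theorem ac_right (hK : Low K) {τ₀ : Finset U} (hτ₀ : τ₀ ∈ Q)
    (hQ : ∀ τ ∈ Q, K τ ∧ ρ ⊂ τ) (hmin : ∀ τ ∈ Q, τ ⊆ τ₀ → τ = τ₀) :
    Ac (lkc (Nc K ρ ∅ Q Finset.univ) (Sum.inr τ₀)) := by
  obtain ⟨hKτ, hρτ⟩ := hQ τ₀ hτ₀
  obtain ⟨u, hu, hu'⟩ := Finset.exists_of_ssubset hρτ
  apply ac_cone (a := Sum.inl u)
  rintro T ⟨hT0, h1, h2, h3, h4, h5⟩
  rw [Finset.toLeft_insert_inr] at h1 h2 h3
  rw [Finset.toRight_insert_inr] at h4 h5
  rw [Finset.toLeft_insert_inr] at h4
  have hsub : T.toLeft ⊆ τ₀ := by
    have := (h4 τ₀ (Finset.mem_insert_self _ _)).2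
    exact Finset.subset_union_right.trans this
  refine ⟨?_, ?_⟩
  · rw [Finset.mem_insert]
    rintro (h | h)
    · exact absurd h (by simp)
    · exact hT0 h
  · rw [Finset.insert_comm]
    unfold Nc
    rw [Finset.toLeft_insert_inl, Finset.toRight_insert_inl, Finset.toLeft_insert_inr,
      Finset.toRight_insert_inr]
    refine ⟨Finset.subset_univ _, ?_, ?_, ?_, h5⟩
    · rw [Finset.disjoint_insert_right]
      refine ⟨?_, h2⟩
      rw [Finset.union_empty]
      exact hu'
    · refine hK _ hKτ _ ?_
      intro x hx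
      simp only [Finset.mem_union, Finset.notMem_empty, or_false, Finset.mem_insert] at hx
      rcases hx with hx | hx | hx
      · exact hρτ.1 hx
      · rw [hx]; exact hu
      · exact hsub hx
    · intro τ hτ
      refine ⟨(h4 τ hτ).1, ?_⟩
      have h6 : τ₀ ⊆ τ := by
        rcases h5 τ hτ τ₀ (Finset.mem_insert_self _ _) with h | h
        · rw [hmin τ (h4 τ hτ).1 h]
        · exact h
      intro x hx
      simp only [Finset.mem_union, Finset.notMem_empty, false_or, Finset.mem_insert] at hx
      rcases hx with hx | hx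
      · rw [hx]; exact h6 hu
      · exact h6 (hsub hx)

/-- Stage 1. -/
theorem stage1 (hK : Low K) {n : ℕ} (S : Finset (Finset U)) (hS : ∀ τ ∈ S, K τ ∧ ρ ⊂ τ)
    (h0 : Sp (Nc K ρ ∅ ∅ Finset.univ) n) :
    ∀ (N : ℕ) (Q : Finset (Finset U)), Q.card = N → Q ⊆ S →
      (∀ τ ∈ Q, ∀ τ' ∈ S, τ ⊆ τ' → τ' ∈ Q) → Sp (Nc K ρ ∅ Q Finset.univ) n := by
  intro N
  induction N with
  | zero =>
    intro Q hQ _ _
    rw [Finset.card_eq_zero] at hQ
    rw [hQ]
    exact h0
  | succ N ih =>
    intro Q hQ hQS hup
    have hne : Q.Nonempty := by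
      rw [← Finset.card_pos]
      omega
    obtain ⟨τ₀, hτ₀, hmin⟩ := Finset.exists_min_image Q Finset.card hne
    have hmin' : ∀ τ ∈ Q, τ ⊆ τ₀ → τ = τ₀ := by
      intro τ hτ h
      exact Finset.eq_of_subset_of_card_le h (hmin τ hτ)
    refine sp_add (nc_low hK) (ac_right hK hτ₀ (fun τ hτ => hS τ (hQS hτ)) hmin') ?_
    refine (ih (Q.erase τ₀) (by rw [Finset.card_erase_of_mem hτ₀]; omega)
      ((Finset.erase_subset _ _).trans hQS) ?_).congr ?_
    · intro τ hτ τ' hτ' hle
      rw [Finset.mem_erase] at hτ ⊢
      refine ⟨?_, hup τ hτ.2 τ' hτ' hle⟩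
      rintro rfl
      exact hτ.1 (hmin' τ hτ.2 hle)
    · intro T
      unfold del Nc
      constructor
      · rintro ⟨h1, h2, h3, h4, h5⟩
        refine ⟨⟨h1, h2, h3, fun τ hτ => ⟨Finset.mem_of_mem_erase (h4 τ hτ).1, (h4 τ hτ).2⟩, h5⟩, ?_⟩
        intro h
        rw [← Finset.mem_toRight] at h
        exact absurd (h4 _ h).1 (Finset.notMem_erase _ _)
      · rintro ⟨⟨h1, h2, h3, h4, h5⟩, h6⟩
        refine ⟨h1, h2, h3, fun τ hτ => ⟨Finset.mem_erase.mpr ⟨?_, (h4 τ hτ).1⟩, (h4 τ hτ).2⟩, h5⟩
        rintro rfl
        exact h6 (Finset.mem_toRight.mp hτ)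

/-- Stage 2a. -/
theorem stage2a (hK : Low K) (S : Finset (Finset U)) (hS : ∀ τ, τ ∈ S ↔ K τ ∧ ρ ⊂ τ) :
    ∀ (R β : Finset U), β.Nonempty → Disjoint ρ β → Ac (Nc K ρ β S R) := by
  intro R
  induction R using Finset.induction with
  | empty =>
    intro β hβ hρβ
    by_cases hKβ : K (ρ ∪ β)
    · apply ac_cone (a := Sum.inr (ρ ∪ β))
      rintro T ⟨h1, h2, h3, h4, h5⟩
      have hl : T.toLeft = ∅ := Finset.subset_empty.mp h1
      unfold Nc
      rw [Finset.toLeft_insert_inr, Finset.toRight_insert_inr]
      have hle : ∀ τ ∈ T.toRight, ρ ∪ β ⊆ τ := by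
        intro τ hτ
        have h6 := (hS τ).mp (h4 τ hτ).1
        exact Finset.union_subset h6.2.1 (Finset.subset_union_left.trans (h4 τ hτ).2)
      refine ⟨h1, h2, h3, ?_, ?_⟩
      · intro τ hτ
        rw [Finset.mem_insert] at hτ
        rcases hτ with rfl | hτ
        · refine ⟨(hS _).mpr ⟨hKβ, ?_⟩, ?_⟩
          · rw [Finset.ssubset_iff_subset_ne]
            refine ⟨Finset.subset_union_left, ?_⟩
            intro h
            obtain ⟨x, hx⟩ := hβ
            have : x ∈ ρ := by
              rw [h]
              exact Finset.mem_union_right _ hx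
            exact Finset.disjoint_left.mp hρβ this hx
          · rw [hl, Finset.union_empty]
            exact Finset.subset_union_right
        · exact h4 τ hτ
      · intro τ hτ τ' hτ'
        rw [Finset.mem_insert] at hτ hτ'
        rcases hτ with rfl | hτ <;> rcases hτ' with rfl | hτ'
        · exact Or.inl subset_rfl
        · exact Or.inl (hle τ' hτ')
        · exact Or.inr (hle τ hτ)
        · exact h5 τ hτ τ' hτ'
    · apply ac_false
      rintro T ⟨h1, h2, h3, h4, h5⟩
      exact hKβ (hK _ h3 _ Finset.subset_union_left)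
  | insert u R hu ih =>
    intro β hβ hρβ
    refine ac_add (a := Sum.inl u) (nc_low hK) ?_ ?_
    · by_cases hu2 : u ∈ ρ ∪ β
      · apply ac_false
        rintro T ⟨_, h1, h2, _⟩
        rw [Finset.toLeft_insert_inl, Finset.disjoint_insert_right] at h2
        exact h2.1 hu2
      · rw [Finset.mem_union, not_or] at hu2
        refine (ih (insert u β) (Finset.insert_nonempty _ _) ?_).congr ?_
        · rw [Finset.disjoint_insert_right]
          exact ⟨hu2.1, hρβ⟩
        · intro T
          unfold lkc Nc
          rw [Finset.toLeft_insert_inl, Finset.toRight_insert_inl]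
          have e1 : ρ ∪ insert u β ∪ T.toLeft = ρ ∪ β ∪ insert u T.toLeft := by
            ext x
            simp only [Finset.mem_union, Finset.mem_insert]
            tauto
          have e2 : insert u β ∪ T.toLeft = β ∪ insert u T.toLeft := by
            ext x
            simp only [Finset.mem_union, Finset.mem_insert]
            tauto
          rw [e1, e2]
          constructor
          · rintro ⟨h1, h2, h3, h4, h5⟩
            refine ⟨?_, Finset.insert_subset_insert u h1, ?_, h3, h4, h5⟩
            · intro h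
              rw [← Finset.mem_toLeft] at h
              exact hu (h1 h)
            · rw [Finset.disjoint_insert_right, Finset.mem_union]
              refine ⟨fun h => h.elim hu2.1 hu2.2, ?_⟩
              refine Finset.disjoint_of_subset_left ?_ h2
              exact Finset.union_subset_union subset_rfl (Finset.subset_insert _ _)
          · rintro ⟨h0, h1, h2, h3, h4, h5⟩
            refine ⟨?_, ?_, h3, h4, h5⟩
            · intro x hx
              have h6 := h1 (Finset.mem_insert_of_mem hx)
              rw [Finset.mem_insert] at h6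
              rcases h6 with rfl | h6
              · exact absurd (Finset.mem_toLeft.mp hx) h0
              · exact h6
            · rw [Finset.disjoint_insert_right] at h2
              rw [Finset.disjoint_left]
              intro x hx hx'
              simp only [Finset.mem_union, Finset.mem_insert] at hx
              rcases hx with hx | rfl | hx
              · exact Finset.disjoint_left.mp h2.2 (Finset.mem_union_left _ hx) hx'
              · exact h0 (Finset.mem_toLeft.mp hx')
              · exact Finset.disjoint_left.mp h2.2 (Finset.mem_union_right _ hx) hx'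
    · refine (ih β hβ hρβ).congr ?_
      intro T
      unfold del Nc
      constructor
      · rintro ⟨h1, h2⟩
        refine ⟨⟨h1.trans (Finset.subset_insert _ _), h2⟩, ?_⟩
        intro h
        rw [← Finset.mem_toLeft] at h
        exact hu (h1 h)
      · rintro ⟨⟨h1, h2⟩, h3⟩
        refine ⟨?_, h2⟩
        intro x hx
        have h6 := h1 hx
        rw [Finset.mem_insert] at h6
        rcases h6 with rfl | h6
        · exact absurd (Finset.mem_toLeft.mp hx) h3
        · exact h6

/-- Stage 2b. -/
theorem stage2b (hK : Low K) (S : Finset (Finset U)) (hS : ∀ τ, τ ∈ S ↔ K τ ∧ ρ ⊂ τ) {n : ℕ}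
    (h0 : Sp (Nc K ρ ∅ S Finset.univ) n) :
    ∀ W : Finset U, Sp (Nc K ρ ∅ S (Finset.univ \ W)) n := by
  intro W
  induction W using Finset.induction with
  | empty =>
    rw [Finset.sdiff_empty]
    exact h0
  | insert u W hu ih =>
    have e0 : Finset.univ \ insert u W = (Finset.univ \ W).erase u := by
      ext x
      simp only [Finset.mem_sdiff, Finset.mem_univ, true_and, Finset.mem_insert, not_or,
        Finset.mem_erase]
    have h1 : Ac (lkc (Nc K ρ ∅ S (Finset.univ \ W)) (Sum.inl u)) := by
      by_cases hu2 : u ∈ ρ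
      · apply ac_false
        rintro T ⟨_, h1, h2, _⟩
        rw [Finset.toLeft_insert_inl, Finset.disjoint_insert_right, Finset.union_empty] at h2
        exact h2.1 hu2
      · refine (stage2a hK S hS (Finset.univ \ insert u W) {u} (Finset.singleton_nonempty u)
          (by rw [Finset.disjoint_singleton_right]; exact hu2)).congr ?_
        intro T
        unfold lkc Nc
        rw [Finset.toLeft_insert_inl, Finset.toRight_insert_inl]
        have e1 : ρ ∪ {u} ∪ T.toLeft = ρ ∪ ∅ ∪ insert u T.toLeft := by
          ext x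
          simp only [Finset.mem_union, Finset.mem_insert, Finset.mem_singleton,
            Finset.notMem_empty]
          tauto
        have e2 : {u} ∪ T.toLeft = ∅ ∪ insert u T.toLeft := by
          ext x
          simp only [Finset.mem_union, Finset.mem_insert, Finset.mem_singleton,
            Finset.notMem_empty]
          tauto
        rw [e1, e2, e0]
        constructor
        · rintro ⟨h1, h2, h3, h4, h5⟩
          refine ⟨?_, ?_, ?_, h3, h4, h5⟩
          · intro h
            rw [← Finset.mem_toLeft] at h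
            exact absurd (h1 h) (Finset.notMem_erase _ _)
          · refine Finset.insert_subset ?_ (h1.trans (Finset.erase_subset _ _))
            simp only [Finset.mem_sdiff, Finset.mem_univ, true_and]
            exact hu
          · rw [Finset.disjoint_insert_right, Finset.union_empty]
            refine ⟨hu2, ?_⟩
            exact Finset.disjoint_of_subset_left Finset.subset_union_left h2
        · rintro ⟨h0, h1, h2, h3, h4, h5⟩
          refine ⟨?_, ?_, h3, h4, h5⟩
          · intro x hx
            rw [Finset.mem_erase]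
            refine ⟨?_, h1 (Finset.mem_insert_of_mem hx)⟩
            rintro rfl
            exact h0 (Finset.mem_toLeft.mp hx)
          · rw [Finset.disjoint_insert_right, Finset.union_empty] at h2
            rw [Finset.disjoint_left]
            intro x hx hx'
            simp only [Finset.mem_union, Finset.mem_singleton] at hx
            rcases hx with hx | rfl
            · exact Finset.disjoint_left.mp h2.2 hx hx'
            · exact h0 (Finset.mem_toLeft.mp hx')
    refine (sp_del (nc_low hK) h1 ih).congr ?_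
    intro T
    unfold del Nc
    rw [e0]
    constructor
    · rintro ⟨⟨h1, h2⟩, h3⟩
      refine ⟨?_, h2⟩
      intro x hx
      rw [Finset.mem_erase]
      refine ⟨?_, h1 hx⟩
      rintro rfl
      exact h3 (Finset.mem_toLeft.mp hx)
    · rintro ⟨h1, h2⟩
      refine ⟨⟨h1.trans (Finset.erase_subset _ _), h2⟩, ?_⟩
      intro h
      rw [← Finset.mem_toLeft] at h
      exact absurd (h1 h) (Finset.notMem_erase _ _)

/-- The link of `ρ` in the complex `K`. -/
def lkS (K : Finset U → Prop) (ρ α : Finset U) : Prop := Disjoint ρ α ∧ K (ρ ∪ α)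

theorem comp_adj {x y : Finset U} : (comparability (Finset U)).Adj x y ↔ x ≠ y ∧ (x ⊆ y ∨ y ⊆ x) := by
  unfold comparability
  rw [SimpleGraph.fromRel_adj]
  constructor
  · rintro ⟨h1, h2 | h2⟩
    · exact ⟨h1, Or.inl h2.1⟩
    · exact ⟨h1, Or.inr h2.1⟩
  · rintro ⟨h1, h2 | h2⟩
    · exact ⟨h1, Or.inl (lt_of_le_of_ne h2 h1)⟩
    · exact ⟨h1, Or.inr (lt_of_le_of_ne h2 h1.symm)⟩

/-- The barycentric subdivision of the link of `ρ`. -/
theorem sp_sd (hK : Low K) (hρ : K ρ) (S : Finset (Finset U)) (hS : ∀ τ, τ ∈ S ↔ K τ ∧ ρ ⊂ τ)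
    {n : ℕ} (h : Sp (lkS K ρ) n) : Sp (Cq (comparability (Finset U)) S) n := by
  have h0 : Sp (Nc K ρ ∅ ∅ Finset.univ) n := by
    rw [← sp_map (Function.Embedding.inl : U ↪ U ⊕ Finset U)]
    · refine h.congr ?_
      intro T
      unfold lkS Nc
      have e1 : (T.map (Function.Embedding.inl : U ↪ U ⊕ Finset U)).toLeft = T := by
        ext x
        simp [Finset.mem_toLeft]
      have e2 : (T.map (Function.Embedding.inl : U ↪ U ⊕ Finset U)).toRight = ∅ := by
        ext x
        simp [Finset.mem_toRight]
      rw [e1, e2, Finset.union_empty]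
      constructor
      · rintro ⟨h1, h2⟩
        exact ⟨Finset.subset_univ _, h1, h2, fun τ hτ => absurd hτ (Finset.notMem_empty _),
          fun τ hτ => absurd hτ (Finset.notMem_empty _)⟩
      · rintro ⟨_, h1, h2, _⟩
        exact ⟨h1, h2⟩
    · rintro T ⟨_, _, _, h4, _⟩
      refine ⟨T.toLeft, ?_⟩
      ext x
      rcases x with x | x
      · simp [Finset.mem_toLeft]
      · constructor
        · intro hx
          simp at hx
        · intro hx
          exact absurd (h4 x (Finset.mem_toRight.mpr hx)).1 (Finset.notMem_empty _)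
  have h1 := stage1 hK S (fun τ hτ => (hS τ).mp hτ) h0 S.card S rfl subset_rfl
    (fun τ _ τ' hτ' _ => hτ')
  have h2 := stage2b hK S hS h1 Finset.univ
  rw [Finset.sdiff_self] at h2
  rw [← sp_map (Function.Embedding.inr : Finset U ↪ U ⊕ Finset U)] at h2
  · refine h2.congr ?_
    intro T
    unfold Cq Nc
    have e1 : (T.map (Function.Embedding.inr : Finset U ↪ U ⊕ Finset U)).toRight = T := by
      ext x
      simp [Finset.mem_toRight]
    have e2 : (T.map (Function.Embedding.inr : Finset U ↪ U ⊕ Finset U)).toLeft = ∅ := by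
      ext x
      simp [Finset.mem_toLeft]
    rw [e1, e2, Finset.union_empty, Finset.union_empty]
    constructor
    · rintro ⟨_, _, _, h4, h5⟩
      refine ⟨fun τ hτ => (h4 τ hτ).1, ?_⟩
      intro x hx y hy hxy
      rw [comp_adj]
      exact ⟨hxy, h5 x hx y hy⟩
    · rintro ⟨h4, h5⟩
      refine ⟨Finset.empty_subset _, Finset.disjoint_empty_right _, hρ,
        fun τ hτ => ⟨h4 hτ, Finset.empty_subset _⟩, ?_⟩
      intro x hx y hy
      by_cases hxy : x = y
      · rw [hxy]
        exact Or.inl subset_rfl
      · exact (comp_adj.mp (h5 hx hy hxy)).2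
  · rintro T ⟨h1, _⟩
    refine ⟨T.toRight, ?_⟩
    ext x
    rcases x with x | x
    · constructor
      · intro hx
        simp at hx
      · intro hx
        exact absurd (h1 (Finset.mem_toLeft.mpr hx)) (Finset.notMem_empty _)
    · simp [Finset.mem_toRight]

end

end Pool.Agent.Sph.H78
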